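import Pool.Agent.MP_826def_gt.H44.Low2

/-! The upper bound. -/

namespace Pool.Agent.MP_826def_gt.H44

open Set Filter Topology unitInterval

variable {G : Type} [Fintype G] [DecidableEq G] {k r : ℕ}

/-- The join coordinate. -/
def tt (i : Fin (k + 1)) (w : EG G k) : ℝ := ∑ g, w.1 (i, g)

omit [DecidableEq G] in
theorem tt_eq {i : Fin (k + 1)} {w : EG G k} {g : G} (h : w.1 (i, g) ≠ 0) : tt i w = w.1 (i, g) :=
  Finset.sum_eq_single g (fun x _ hx => not_not.1 fun e => hx (w.2.2 i x g e h)) (by simp)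

omit [DecidableEq G] in
theorem tt_ne {i : Fin (k + 1)} {w : EG G k} (h : tt i w ≠ 0) : ∃ g, w.1 (i, g) ≠ 0 :=
  (Finset.exists_ne_zero_of_sum_ne_zero h).imp fun _ h => h.2

omit [DecidableEq G] in
theorem tt_cont (i : Fin (k + 1)) : Continuous (tt (G := G) i) :=
  continuous_finsetSum _ fun _ _ => (continuous_apply _).comp cont_val

open Classical in
/-- The contraction of the open star of the copy `i`. -/
noncomputable def con (i : Fin (k + 1)) (t : I) (w : EG G k) : EG G k :=
  if h : tt i w ≠ 0 then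
    mix w i 0 (tt_ne h).choose (fun x e => w.2.2 i x _ e (tt_ne h).choose_spec)
      (max (1 - 2 * t : ℝ) 0) (1 - max (1 - 2 * t : ℝ) 0 - max (2 * t - 1 : ℝ) 0)
      (max (2 * t - 1 : ℝ) 0)
      (le_max_right _ _) (by
        have := t.2.1
        have := t.2.2
        rcases le_total (2 * t : ℝ) 1 with h | h
        · rw [max_eq_left (by linarith), max_eq_right (by linarith)]; linarith
        · rw [max_eq_right (by linarith), max_eq_left (by linarith)]; linarith)
      (le_max_right _ _) (by ring) ((le_total (1 : ℝ) (2 * t)).imp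
        (fun h => max_eq_right (by linarith)) fun h => max_eq_right (by linarith))
  else w

theorem con_val {i : Fin (k + 1)} (t : I) {w : EG G k} (h : tt i w ≠ 0) (j : Fin (k + 1)) (x : G) :
    (con i t w).1 (j, x) = max (1 - 2 * t : ℝ) 0 * w.1 (j, x) +
      (1 - max (1 - 2 * t : ℝ) 0 - max (2 * t - 1 : ℝ) 0) *
        (if j = i then w.1 (i, x) / tt i w else 0) +
      max (2 * t - 1 : ℝ) 0 * if j = 0 then w.1 (i, x) / tt i w else 0 := by
  have h1 := (tt_ne h).choose_spec
  have h2 : ∀ i', (Pi.single (i', (tt_ne h).choose) 1 : Fin (k + 1) × G → ℝ) (j, x) =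
      if j = i' then w.1 (i, x) / tt i w else 0 := fun i' => by
    by_cases e : x = (tt_ne h).choose
    · rw [tt_eq h1, e, div_self h1]
      simp [Pi.single_apply]
    · rw [not_not.1 fun e' => e (w.2.2 i x _ e' h1)]
      simp [e]
  rw [con, dif_pos h, ← h2, ← h2]
  rfl

variable [Group G]

omit [DecidableEq G] in
theorem tt_smul (i : Fin (k + 1)) (g : G) (w : EG G k) : tt i (g • w) = tt i w :=
  Equiv.sum_comp (Equiv.mulLeft g⁻¹) fun x => w.1 (i, x)

theorem con_smul (i : Fin (k + 1)) (t : I) (g : G) (w : EG G k) :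
    con i t (g • w) = g • con i t w := by
  by_cases h : tt i w = 0
  · rw [con, con, dif_neg (not_not.2 h), dif_neg (not_not.2 ((tt_smul i g w).trans h))]
  · refine Subtype.ext (funext fun ⟨j, x⟩ => ?_)
    rw [smul_val, con_val t h, con_val t (by rwa [tt_smul]), tt_smul, smul_val, smul_val]

theorem null (i : Fin (k + 1)) : ∃ H : I × BG G k → BG G k, ∀ w : EG G k, tt i w ≠ 0 →
    H (0, Quotient.mk _ w) = Quotient.mk _ w ∧ H (1, Quotient.mk _ w) = Quotient.mk _ (vx 0 1) ∧
      ∀ t, ContinuousAt H (t, Quotient.mk _ w) := by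
  let H : I × BG G k → BG G k := fun z => Quotient.mk _ (con i z.1 z.2.out)
  have h1 : ∀ t w, H (t, Quotient.mk _ w) = Quotient.mk _ (con i t w) := fun t w => by
    obtain ⟨g, hg⟩ := MulAction.orbitRel_apply.1 (Quotient.exact (Quotient.out_eq
      (Quotient.mk (MulAction.orbitRel G (EG G k)) w)))
    simp only [H, ← hg, con_smul, mk_smul]
  refine ⟨H, fun w hw => ⟨?_, ?_, fun t => ?_⟩⟩
  · rw [h1]
    exact congrArg _ (Subtype.ext (funext fun ⟨j, x⟩ => by simp [con_val 0 hw]))
  · obtain ⟨g, hg⟩ := tt_ne hw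
    rw [h1, ← mk_smul g (vx 0 1)]
    refine congrArg _ (Subtype.ext (funext fun ⟨j, x⟩ => ?_))
    rw [con_val 1 hw, smul_val, tt_eq hg]
    by_cases e : x = g
    · norm_num [vx, e, Pi.single_apply, div_self hg]
    · norm_num [vx, not_not.1 fun e' => e (w.2.2 i x _ e' hg), inv_mul_eq_one, Ne.symm e]
  · refine ((IsOpenQuotientMap.id.prodMap MulAction.isOpenQuotientMap_quotientMk).continuousAt_comp_iff
      (x := (t, w))).1 ?_
    rw [show H ∘ Prod.map id (Quotient.mk _) = Quotient.mk _ ∘ fun z : I × EG G k => con i z.1 z.2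
      from funext fun z => h1 z.1 z.2]
    refine continuous_quotient_mk'.continuousAt.comp (IsInducing.subtypeVal.continuousAt_iff.2
      (continuousAt_pi.2 fun ⟨j, x⟩ => ?_))
    have c1 : ∀ y, Continuous fun z : I × EG G k => z.2.1 y := fun y =>
      ((continuous_apply y).comp cont_val).comp continuous_snd
    have c2 : ∀ j', ContinuousAt (fun z : I × EG G k =>
        if j = j' then z.2.1 (i, x) / tt i z.2 else 0) (t, w) := fun j' => by
      split_ifs
      · exact (c1 _).continuousAt.div ((tt_cont i).comp continuous_snd).continuousAt hw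
      · exact continuousAt_const
    refine ContinuousAt.congr ?_ ((((tt_cont i).comp continuous_snd).continuousAt.eventually_ne
      (x := (t, w)) hw).mono fun z hz => (con_val z.1 hz j x).symm)
    exact ((ContinuousAt.mul (by fun_prop) (c1 _).continuousAt).add
      (ContinuousAt.mul (by fun_prop) (c2 _))).add (ContinuousAt.mul (by fun_prop) (c2 _))

theorem upper (r k : ℕ) : Cov (diag r (BG G k)) (r * k) := by
  classical
  choose H hH using null (G := G) (k := k)
  let τ : Fin r × Fin (k + 1) → (Fin r → BG G k) → ℝ := fun a x =>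
    Quotient.lift (tt a.2) (fun w w' h => by
      obtain ⟨g, rfl⟩ := MulAction.orbitRel_apply.1 h
      exact tt_smul _ _ _) (x a.1)
  have t1 : ∀ a, Continuous (τ a) := fun a =>
    ((tt_cont a.2).quotient_lift _).comp (continuous_apply a.1)
  let W : Finset (Fin r × Fin (k + 1)) → Set (Fin r → BG G k) := fun S =>
    {x | (∀ j, ∃ i, (j, i) ∈ S) ∧ ∀ a ∈ S, 0 < τ a x ∧ ∀ b ∉ S, τ b x < τ a x}
  have w1 : ∀ S, IsOpen (W S) := fun S => by
    refine isOpen_iff_mem_nhds.2 fun x hx => (Eventually.of_forall fun _ => hx.1).and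
      ((eventually_all_finset S).2 fun a ha => ?_)
    exact (continuousAt_const.eventually_lt (t1 a).continuousAt (hx.2 a ha).1).and
      (eventually_all.2 fun b => eventually_imp_distrib_left.2 fun hb =>
        (t1 b).continuousAt.eventually_lt (t1 a).continuousAt ((hx.2 a ha).2 b hb))
  have w2 : ∀ S S' x, S.card = S'.card → x ∈ W S → x ∈ W S' → S = S' := fun S S' x e h h' => by
    by_contra hn
    obtain ⟨a, a1, a2⟩ := Finset.not_subset.1 fun s => hn (Finset.eq_of_subset_of_card_le s e.ge)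
    obtain ⟨b, b1, b2⟩ := Finset.not_subset.1 fun s =>
      hn (Finset.eq_of_subset_of_card_le s e.le).symm
    exact ((h.2 a a1).2 b b2).not_gt ((h'.2 b b1).2 a a2)
  refine ⟨fun c => ⋃ S, ⋃ (_ : S.card = r + c), W S,
    fun c => isOpen_iUnion fun S => isOpen_iUnion fun _ => w1 S,
    eq_univ_of_forall fun x => ?_, fun c => ⟨.const _ (Quotient.mk _ (vx 0 1)), ?_⟩⟩
  · have t2 : ∀ a, 0 ≤ τ a x := fun a => by
      obtain ⟨w, hw⟩ := Quotient.exists_rep (x a.1)
      simp only [τ, ← hw]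
      exact Finset.sum_nonneg fun g _ => w.2.1.1 _
    have t3 : ∀ j, ∃ i, (j, i) ∈ Finset.univ.filter fun a => 0 < τ a x := fun j => by
      obtain ⟨w, hw⟩ := Quotient.exists_rep (x j)
      obtain ⟨⟨i, g⟩, h⟩ := exists_ne w
      refine ⟨i, Finset.mem_filter.2 ⟨Finset.mem_univ _, ?_⟩⟩
      simp only [τ, ← hw]
      exact ((w.2.1.1 _).lt_of_ne' h).trans_eq (tt_eq h).symm
    have t4 := Finset.card_le_card_of_surjOn (s := Finset.univ.filter fun a => 0 < τ a x)
      (t := Finset.univ) Prod.fst fun j _ => (t3 j).elim fun i hi => ⟨(j, i), hi, rfl⟩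
    have t5 := Finset.card_le_univ (Finset.univ.filter fun a => 0 < τ a x)
    simp only [Finset.card_univ, Fintype.card_prod, Fintype.card_fin, mul_add, mul_one] at t4 t5
    refine mem_iUnion.2 ⟨⟨(Finset.univ.filter fun a => 0 < τ a x).card - r, by omega⟩,
      mem_iUnion₂.2 ⟨_, (Nat.add_sub_cancel' t4).symm, t3, fun a ha => ?_⟩⟩
    have := (Finset.mem_filter.1 ha).2
    exact ⟨this, fun b hb => lt_of_le_of_lt
      (not_lt.1 fun e => hb (Finset.mem_filter.2 ⟨Finset.mem_univ _, e⟩)) this⟩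
  · choose sl s1 s2 using fun x : (⋃ S, ⋃ (_ : S.card = r + c), W S : Set _) => mem_iUnion₂.1 x.2
    let ι : Finset (Fin r × Fin (k + 1)) → Fin r → Fin (k + 1) := fun S j =>
      Classical.epsilon fun i => (j, i) ∈ S
    have s3 : ∀ x j, H (ι (sl x) j) (0, x.1 j) = x.1 j ∧
        H (ι (sl x) j) (1, x.1 j) = Quotient.mk _ (vx 0 1) ∧
          ∀ t, ContinuousAt (H (ι (sl x) j)) (t, x.1 j) := fun x j => by
      obtain ⟨w, hw⟩ := Quotient.exists_rep (x.1 j)
      have := ((s2 x).2 _ (Classical.epsilon_spec ((s2 x).1 j))).1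
      simp only [τ, ← hw] at this
      exact hw ▸ hH _ w this.ne'
    refine ContinuousMap.Homotopic.symm ⟨⟨⟨fun z j => H (ι (sl z.2) j) (z.1, z.2.1 j),
      continuous_pi fun j => continuous_iff_continuousAt.2 fun z => ?_⟩,
      fun x => funext fun j => (s3 x j).1, fun x => funext fun j => (s3 x j).2.1⟩⟩
    have c1 : Continuous fun y : I × (⋃ S, ⋃ (_ : S.card = r + c), W S : Set _) => y.2.1 :=
      continuous_subtype_val.comp continuous_snd
    refine ContinuousAt.congr (ContinuousAt.comp (f := fun y : I × _ => (y.1, y.2.1 j))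
      ((s3 z.2 j).2.2 z.1) (continuous_fst.prodMk ((continuous_apply j).comp c1)).continuousAt) ?_
    filter_upwards [((w1 (sl z.2)).preimage c1).mem_nhds (s2 z.2)] with y hy
    rw [w2 _ _ _ ((s1 y.2).trans (s1 z.2).symm) (s2 y.2) hy]
    rfl

theorem tc_eq {p : ℕ} [Fact p.Prime] (φ : Multiplicative (ZMod p × ZMod p) →* G)
    (hφ : Function.Injective φ) (hr : 2 ≤ r) (k : ℕ) : TC r (BG G k) = (r * k : ℕ) :=
  le_antisymm (iInf₂_le (r * k) (upper r k))
    (le_iInf₂ fun _ h => Nat.cast_le.2 (lower φ hφ hr h))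

theorem alpha_eq {p : ℕ} [Fact p.Prime] (φ : Multiplicative (ZMod p × ZMod p) →* G)
    (hφ : Function.Injective φ) (hr : 2 ≤ r) (n : ℕ) : alpha G r n = n / r := by
  have : {k : ℕ | 1 ≤ k ∧ TC r (BG G k) ≤ n} = Icc 1 (n / r) := by
    ext k
    rw [mem_ofPred_eq, tc_eq φ hφ hr, Nat.cast_le, mem_Icc, Nat.le_div_iff_mul_le (by omega),
      mul_comm]
  rw [alpha, this, ncard_eq_toFinset_card', toFinset_Icc, Nat.card_Icc, Nat.add_sub_cancel]

theorem div_lim (hr : 2 ≤ r) :
    Tendsto (fun n : ℕ => ((n / r : ℕ) : ℝ) / n) atTop (𝓝 (1 / r)) := by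
  have h0 : (0 : ℝ) < r := Nat.cast_pos.2 (by omega)
  have h1 : Tendsto (fun n : ℕ => 1 / (r : ℝ) - 1 / n) atTop (𝓝 (1 / r)) := by
    simpa using tendsto_const_nhds.sub (tendsto_one_div_atTop_nhds_zero_nat (𝕜 := ℝ))
  refine tendsto_of_tendsto_of_tendsto_of_le_of_le' h1 tendsto_const_nhds ?_ ?_ <;>
    filter_upwards [eventually_gt_atTop 0] with n hn
  · have h2 : (0 : ℝ) < n := Nat.cast_pos.2 hn
    have h3 : (n : ℝ) < ((n / r : ℕ) + 1) * r := by
      exact_mod_cast (Nat.div_lt_iff_lt_mul (by omega)).1 (Nat.lt_succ_self (n / r))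
    rw [sub_le_iff_le_add, ← add_div, div_le_div_iff₀ h0 h2]
    linarith
  · rw [div_le_iff₀ (Nat.cast_pos.2 hn), one_div_mul_eq_div]
    exact Nat.cast_div_le

end Pool.Agent.MP_826def_gt.H44
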