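import Pool.Agent.MP_826def_gt.H44.Perm

/-! Ordered chains: boundary, prism, fine cones and sorting. -/

namespace Pool.Agent.MP_826def_gt.H44

open Set Finsupp

variable {F : Type} [Field F] {Ω Ω' : Type}

/-- The cone with a vertex. -/
noncomputable def cn (v : Ω) : (List Ω →₀ F) →ₗ[F] (List Ω →₀ F) := lmapDomain F F (List.cons v)

/-- The map induced by a vertex map. -/
noncomputable def cm (f : Ω → Ω') : (List Ω →₀ F) →ₗ[F] (List Ω' →₀ F) :=
  lmapDomain F F (List.map f)

@[simp] theorem cn_single (v : Ω) (l : List Ω) (c : F) : cn v (single l c) = single (v :: l) c :=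
  mapDomain_single

@[simp] theorem cm_single (f : Ω → Ω') (l : List Ω) (c : F) :
    cm f (single l c) = single (l.map f) c := mapDomain_single

theorem lin_eq {M : Type} [AddCommGroup M] [Module F M] {L L' : (Ω →₀ F) →ₗ[F] M}
    (h : ∀ s, L (single s 1) = L' (single s 1)) (z : Ω →₀ F) : L z = L' z :=
  supp_eq (S := univ) (fun s _ => h s) (by simp)

/-- The boundary of a list. -/
noncomputable def bdL : List Ω → (List Ω →₀ F)
  | [] => 0
  | v :: l => single l 1 - cn v (bdL l)

/-- The boundary. -/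
noncomputable def bd : (List Ω →₀ F) →ₗ[F] (List Ω →₀ F) := linearCombination F bdL

@[simp] theorem bd_single (l : List Ω) : bd (single l (1 : F)) = bdL l := by simp [bd]

theorem bd_cn (v : Ω) (z : List Ω →₀ F) : bd (cn v z) = z - cn v (bd z) :=
  lin_eq (L := bd ∘ₗ cn v) (L' := LinearMap.id - cn v ∘ₗ bd) (fun l => by simp [bdL]) z

theorem bd_bd (z : List Ω →₀ F) : bd (bd z) = 0 :=
  lin_eq (L := bd ∘ₗ bd) (L' := 0) (fun l => by
    rw [LinearMap.comp_apply, bd_single, LinearMap.zero_apply]
    induction l with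
    | nil => simp [bdL]
    | cons v l ih => rw [bdL, map_sub, bd_cn, ih, bd_single]; simp) z

theorem cm_cn (f : Ω → Ω') (v : Ω) (z : List Ω →₀ F) : cm f (cn v z) = cn (f v) (cm f z) :=
  lin_eq (L := cm f ∘ₗ cn v) (L' := cn (f v) ∘ₗ cm f) (fun l => by simp) z

theorem bd_cm (f : Ω → Ω') (z : List Ω →₀ F) : bd (cm f z) = cm f (bd z) :=
  lin_eq (L := bd ∘ₗ cm f) (L' := cm f ∘ₗ bd) (fun l => by
    simp only [LinearMap.comp_apply, cm_single, bd_single]
    induction l with
    | nil => simp [bdL]
    | cons v l ih => rw [List.map_cons, bdL, bdL, map_sub, cm_cn, ih, cm_single]) z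

theorem smono {S S' : Set Ω} {z : Ω →₀ F} (hz : z ∈ supported F F S) (h : ∀ l ∈ S, l ∈ S') :
    z ∈ supported F F S' := supported_mono h hz

theorem cn_mem {S S' : Set (List Ω)} {v : Ω} {z : List Ω →₀ F} (hz : z ∈ supported F F S)
    (h : ∀ l ∈ S, v :: l ∈ S') : cn v z ∈ supported F F S' :=
  supp_map (fun l hl => by rw [cn_single]; exact single_mem_supported F _ (h l hl)) hz

theorem bdL_mem (l : List Ω) :
    bdL l ∈ supported F F {l' | l'.Sublist l ∧ l'.length + 1 = l.length} := by
  induction l with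
  | nil => exact Submodule.zero_mem _
  | cons v l ih =>
    refine Submodule.sub_mem _ (single_mem_supported F _ ⟨List.sublist_cons_self v l, rfl⟩) ?_
    exact cn_mem ih fun l' h => ⟨h.1.cons_cons v, congrArg (· + 1) h.2⟩

theorem bd_mem {S S' : Set (List Ω)}
    (h : ∀ l ∈ S, ∀ l', l'.Sublist l → l'.length + 1 = l.length → l' ∈ S') {z : List Ω →₀ F}
    (hz : z ∈ supported F F S) : bd z ∈ supported F F S' :=
  supp_map (fun l hl => by
    rw [bd_single]; exact smono (bdL_mem l) fun l' h' => h l hl l' h'.1 h'.2) hz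

/-- The prism over a list. -/
noncomputable def prL (f g : Ω → Ω') : List Ω → (List Ω' →₀ F)
  | [] => 0
  | v :: l => single (f v :: g v :: l.map g) 1 - cn (f v) (prL f g l)

/-- The prism operator. -/
noncomputable def pr (f g : Ω → Ω') : (List Ω →₀ F) →ₗ[F] (List Ω' →₀ F) :=
  linearCombination F (prL f g)

@[simp] theorem pr_single (f g : Ω → Ω') (l : List Ω) :
    pr f g (single l (1 : F)) = prL f g l := by simp [pr]

theorem pr_cn (f g : Ω → Ω') (v : Ω) (z : List Ω →₀ F) :
    pr f g (cn v z) = cn (f v) (cn (g v) (cm g z)) - cn (f v) (pr f g z) :=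
  lin_eq (L := pr f g ∘ₗ cn v) (L' := cn (f v) ∘ₗ cn (g v) ∘ₗ cm g - cn (f v) ∘ₗ pr f g)
    (fun l => by simp [prL]) z

theorem bd_pr (f g : Ω → Ω') (z : List Ω →₀ F) :
    bd (pr f g z) = cm g z - cm f z - pr f g (bd z) :=
  lin_eq (L := bd ∘ₗ pr f g) (L' := cm g - cm f - pr f g ∘ₗ bd) (fun l => by
    simp only [LinearMap.comp_apply, LinearMap.sub_apply]
    induction l with
    | nil => simp [prL, bdL]
    | cons v l ih =>
      rw [← cn_single, pr_cn, map_sub, bd_cn, bd_cn, bd_cn, ih, bd_cn, bd_cm, cm_cn, cm_cn]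
      simp only [map_sub, pr_cn]
      abel) z

theorem prL_mem (f g : Ω → Ω') (l : List Ω) : prL f g l ∈ supported F F
    {l' | l'.length = l.length + 1 ∧ ∀ x ∈ l', ∃ v ∈ l, x = f v ∨ x = g v} := by
  induction l with
  | nil => exact Submodule.zero_mem _
  | cons v l ih =>
    refine Submodule.sub_mem _ (single_mem_supported F _ ⟨by simp, fun x hx => ?_⟩)
      (cn_mem ih fun l' h => And.intro (congrArg (· + 1) h.1) fun x hx => ?_)
    · rcases List.mem_cons.1 hx with rfl | hx
      · exact ⟨v, List.mem_cons_self, Or.inl rfl⟩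
      · obtain ⟨w, hw, rfl⟩ := List.mem_map.1 (show x ∈ (v :: l).map g from hx)
        exact ⟨w, hw, Or.inr rfl⟩
    · rcases List.mem_cons.1 hx with rfl | hx
      · exact ⟨v, List.mem_cons_self, Or.inl rfl⟩
      · obtain ⟨w, hw, e⟩ := h.2 x hx
        exact ⟨w, List.mem_cons_of_mem _ hw, e⟩

section Fine

variable {X : Type} [PseudoMetricSpace X]

/-- Small lists in `K`. -/
def Fn (K : Set X) (δ : ℝ) (m : ℕ) : Set (List X) :=
  {l | l.length = m ∧ (∀ x ∈ l, x ∈ K) ∧ ∀ x ∈ l, ∀ y ∈ l, dist x y ≤ δ}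

theorem Fn_mono {K K' : Set X} {δ δ' : ℝ} (h : K ⊆ K') (h' : δ ≤ δ') (m : ℕ) :
    Fn K δ m ⊆ Fn K' δ' m := fun _ hl =>
  ⟨hl.1, fun x hx => h (hl.2.1 x hx), fun x hx y hy => (hl.2.2 x hx y hy).trans h'⟩

/-- `K` contracts to a point in small steps that do not increase distances. -/
def Star (K : Set X) (η : ℝ) : Prop := ∃ (M : ℕ) (v : X) (f : ℕ → X → X), v ∈ K ∧
  (∀ x ∈ K, f 0 x = x ∧ f M x = v ∧ ∀ j, f j x ∈ K ∧ dist (f j x) (f (j + 1) x) ≤ η) ∧
    ∀ j, ∀ x ∈ K, ∀ y ∈ K, dist (f j x) (f j y) ≤ dist x y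

theorem Star.cone {K : Set X} {η δ : ℝ} (h : Star K η) (hδ : 0 ≤ δ) (hη : 0 ≤ η) {m : ℕ}
    {z : List X →₀ F} (hz : z ∈ supported F F (Fn K δ m)) (h0 : bd z = 0) :
    ∃ c ∈ supported F F (Fn K (δ + η) (m + 1)), bd c = z := by
  obtain ⟨M, v, f, hv, h1, h2⟩ := h
  have k : ∀ j, ∃ c ∈ supported F F (Fn K (δ + η) (m + 1)), bd c = z - cm (f j) z := by
    intro j
    induction j with
    | zero =>
      refine ⟨0, Submodule.zero_mem _, ?_⟩
      rw [map_zero, supp_eq (L := cm (f 0)) (L' := LinearMap.id) (fun l hl => ?_) hz]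
      · simp
      · rw [cm_single, List.map_congr_left fun x hx => (h1 x (hl.2.1 x hx)).1, List.map_id']
        rfl
    | succ j ih =>
      obtain ⟨c, hc, e⟩ := ih
      refine ⟨c - pr (f j) (f (j + 1)) z, Submodule.sub_mem _ hc (supp_map (fun l hl => ?_) hz),
        by rw [map_sub, e, bd_pr, h0, map_zero]; abel⟩
      rw [pr_single]
      refine smono (prL_mem _ _ l) fun l' h => ⟨h.1.trans (by rw [hl.1]), fun x hx => ?_,
        fun x hx y hy => ?_⟩
      · obtain ⟨w, hw, rfl | rfl⟩ := h.2 x hx <;> exact ((h1 w (hl.2.1 w hw)).2.2 _).1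
      · obtain ⟨w, hw, e⟩ := h.2 x hx
        obtain ⟨w', hw', e'⟩ := h.2 y hy
        have a1 := hl.2.2 w hw w' hw'
        have a2 := h2 j w (hl.2.1 w hw) w' (hl.2.1 w' hw')
        have a3 := h2 (j + 1) w (hl.2.1 w hw) w' (hl.2.1 w' hw')
        have a4 := ((h1 w (hl.2.1 w hw)).2.2 j).2
        have a5 := ((h1 w' (hl.2.1 w' hw')).2.2 j).2
        rcases e with rfl | rfl <;> rcases e' with rfl | rfl
        · linarith
        · linarith [dist_triangle (f j w) (f j w') (f (j + 1) w')]
        · linarith [dist_triangle_left (f (j + 1) w) (f j w') (f j w)]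
        · linarith
  obtain ⟨c, hc, e⟩ := k M
  refine ⟨c + cn v (cm (f M) z), Submodule.add_mem _ hc
    (supp_map (L := cn v ∘ₗ cm (f M)) (fun l hl => ?_) hz),
    by rw [map_add, e, bd_cn, bd_cm, h0, map_zero, map_zero]; abel⟩
  rw [LinearMap.comp_apply, cm_single, cn_single]
  have a : ∀ x ∈ v :: l.map (f M), x = v := fun x hx => by
    rcases List.mem_cons.1 hx with rfl | hx
    · rfl
    · obtain ⟨w, hw, rfl⟩ := List.mem_map.1 hx
      exact (h1 w (hl.2.1 w hw)).2.1
  exact single_mem_supported F _ ⟨by simp [hl.1], fun x hx => a x hx ▸ hv, fun x hx y hy => by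
    rw [a x hx, a y hy, dist_self]; exact add_nonneg hδ hη⟩

end Fine

section Srt

variable (col : Ω → ℕ)

/-- Insertion with sign into a list with increasing colours. -/
noncomputable def insL (v : Ω) : List Ω → (List Ω →₀ F)
  | [] => single [v] 1
  | w :: l => if col v < col w then single (v :: w :: l) 1 else
      if col v = col w then 0 else -cn w (insL v l)

/-- Insertion. -/
noncomputable def ins (v : Ω) : (List Ω →₀ F) →ₗ[F] (List Ω →₀ F) :=
  linearCombination F (insL col v)

/-- Sorting with sign. -/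
noncomputable def srtL : List Ω → (List Ω →₀ F)
  | [] => single [] 1
  | v :: l => ins col v (srtL l)

/-- Sorting. -/
noncomputable def srt : (List Ω →₀ F) →ₗ[F] (List Ω →₀ F) := linearCombination F (srtL col)

@[simp] theorem ins_single (v : Ω) (l : List Ω) : ins col v (single l (1 : F)) = insL col v l := by
  simp [ins]

@[simp] theorem srt_single (l : List Ω) : srt col (single l (1 : F)) = srtL col l := by simp [srt]

theorem srt_cn (v : Ω) (z : List Ω →₀ F) : srt col (cn v z) = ins col v (srt col z) :=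
  lin_eq (L := srt col ∘ₗ cn v) (L' := ins col v ∘ₗ srt col) (fun l => by simp [srtL]) z

/-- Lists with increasing colours. -/
def Inc (l : List Ω) : Prop := l.Pairwise fun x y => col x < col y

variable {col}

theorem insL_lt {v : Ω} {l : List Ω} (h : ∀ x ∈ l, col v < col x) :
    (insL col v l : List Ω →₀ F) = single (v :: l) 1 := by
  cases l with
  | nil => rfl
  | cons w l => rw [insL, if_pos (h w List.mem_cons_self)]

theorem ins_cn (v w : Ω) (z : List Ω →₀ F) : ins col v (cn w z) =
    if col v < col w then cn v (cn w z) else if col v = col w then 0 else -cn w (ins col v z) :=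
  (lin_eq (F := F) (L := ins col v ∘ₗ cn w) (L' := if col v < col w then cn v ∘ₗ cn w else
    if col v = col w then 0 else -(cn (F := F) w ∘ₗ ins (F := F) col v))
    (fun l => by split_ifs <;> simp [insL, *]) z).trans (by split_ifs <;> rfl)

theorem insL_mem (v : Ω) {l : List Ω} (h : Inc col l) : insL col v l ∈ supported F F
    {l' | Inc col l' ∧ l'.length = l.length + 1 ∧ ∀ x ∈ l', x = v ∨ x ∈ l} := by
  induction l with
  | nil => exact single_mem_supported F _ ⟨List.pairwise_singleton _ _, rfl, by simp⟩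
  | cons w l ih =>
    obtain ⟨h1, h2⟩ := List.pairwise_cons.1 h
    rw [insL]
    split_ifs with a b
    · refine single_mem_supported F _ ⟨List.pairwise_cons.2 ⟨fun x hx => ?_, h⟩, rfl,
        fun x hx => List.mem_cons.1 hx⟩
      rcases List.mem_cons.1 hx with rfl | hx
      · exact a
      · exact a.trans (h1 x hx)
    · exact Submodule.zero_mem _
    · refine Submodule.neg_mem _ ?_
      refine cn_mem (ih h2) fun l' h' => ⟨List.pairwise_cons.2
        ⟨fun x hx => ?_, h'.1⟩, congrArg (· + 1) h'.2.1, fun x hx => ?_⟩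
      · rcases h'.2.2 x hx with rfl | hx
        · omega
        · exact h1 x hx
      · rcases List.mem_cons.1 hx with rfl | hx
        · exact Or.inr List.mem_cons_self
        · exact (h'.2.2 x hx).imp_right (List.mem_cons_of_mem _)

theorem bd_insL (v : Ω) {l : List Ω} (h : Inc col l) (h' : ∀ x ∈ l, col x = col v → x = v) :
    bd (insL col v l : List Ω →₀ F) = single l 1 - ins col v (bdL l) := by
  induction l with
  | nil => simp [insL, bdL]
  | cons w l ih =>
    obtain ⟨h1, h2⟩ := List.pairwise_cons.1 h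
    rw [insL, bdL, map_sub, ins_cn, ins_single]
    split_ifs with a b
    · rw [insL_lt fun x hx => a.trans (h1 x hx), bd_single, bdL, bdL, map_sub, cn_single]
    · obtain rfl := h' w List.mem_cons_self b.symm
      rw [insL_lt h1]
      simp
    · rw [map_neg, bd_cn, ih h2 fun x hx => h' x (List.mem_cons_of_mem _ hx), map_sub, cn_single]
      abel

theorem srtL_mem (l : List Ω) : srtL col l ∈ supported F F
    {l' | Inc col l' ∧ l'.length = l.length ∧ ∀ x ∈ l', x ∈ l} := by
  induction l with
  | nil => exact single_mem_supported F _ ⟨List.Pairwise.nil, rfl, fun _ h => h⟩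
  | cons v l ih =>
    refine supp_map (L := ins col v) (fun l' h => ?_) ih
    rw [ins_single]
    exact smono (insL_mem v h.1) fun l'' h' => ⟨h'.1, h'.2.1.trans (congrArg (· + 1) h.2.1),
      fun x hx => List.mem_cons.2 ((h'.2.2 x hx).imp_right (h.2.2 x))⟩

theorem bd_srtL {l : List Ω} (h : ∀ x ∈ l, ∀ y ∈ l, col x = col y → x = y) :
    bd (srtL col l : List Ω →₀ F) = srt col (bdL l) := by
  induction l with
  | nil => simp [srtL, bdL]
  | cons v l ih =>
    rw [srtL, bdL, map_sub, srt_cn, srt_single, ← ih fun x hx y hy =>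
      h x (List.mem_cons_of_mem _ hx) y (List.mem_cons_of_mem _ hy)]
    exact supp_eq (F := F) (L := bd ∘ₗ ins col v) (L' := LinearMap.id - ins col v ∘ₗ bd) (fun l' h' => by
      simpa using bd_insL (F := F) v h'.1 fun x hx =>
        h x (List.mem_cons_of_mem _ (h'.2.2 x hx)) v List.mem_cons_self) (srtL_mem l)

theorem cm_srtL {f : Ω → Ω} (hf : ∀ x, col (f x) = col x) (l : List Ω) :
    (srtL col (l.map f) : List Ω →₀ F) = cm f (srtL col l) := by
  have h : ∀ v (l : List Ω), (insL col (f v) (l.map f) : List Ω →₀ F) = cm f (insL col v l) := by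
    intro v l
    induction l with
    | nil => simp [insL]
    | cons w l ih =>
      rw [List.map_cons, insL, insL, hf, hf]
      split_ifs
      · simp
      · simp
      · rw [ih, map_neg, cm_cn]
  induction l with
  | nil => simp [srtL]
  | cons v l ih =>
    rw [List.map_cons, srtL, srtL, ih]
    exact lin_eq (F := F) (L := ins col (f v) ∘ₗ cm f) (L' := cm f ∘ₗ ins col v)
      (fun l' => by simpa using h v l') _

end Srt

end Pool.Agent.MP_826def_gt.H44
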