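import Mathlib

/-! Sectional category, sequential topological complexity and Milnor's construction. -/

namespace Pool.Agent.MP_826def_gt.H44

/-- `B` has an open cover by `k + 1` sets with a homotopy section of `f` on each. -/
def Cov {E B : Type} [TopologicalSpace E] [TopologicalSpace B] (f : C(E, B)) (k : ℕ) : Prop :=
  ∃ U : Fin (k + 1) → Set B, (∀ i, IsOpen (U i)) ∧ ⋃ i, U i = Set.univ ∧
    ∀ i, ∃ s : C(U i, E), (f.comp s).Homotopic ⟨Subtype.val, continuous_subtype_val⟩

/-- The reduced sectional category. -/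
noncomputable def secat {E B : Type} [TopologicalSpace E] [TopologicalSpace B] (f : C(E, B)) : ℕ∞ :=
  ⨅ (k : ℕ) (_ : Cov f k), (k : ℕ∞)

/-- The diagonal map. -/
def diag (r : ℕ) (X : Type) [TopologicalSpace X] : C(X, Fin r → X) :=
  ⟨fun x _ => x, continuous_pi fun _ => continuous_id⟩

/-- The sequential topological complexity. -/
noncomputable def TC (r : ℕ) (X : Type) [TopologicalSpace X] : ℕ∞ := secat (diag r X)

variable (G : Type) [Group G] [Fintype G]

/-- The `(n + 1)`-fold join of the finite set `G`: convex combinations of the vertices `(i, g)`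
that use at most one vertex in each copy `i`. -/
def EG (n : ℕ) : Type :=
  {w : Fin (n + 1) × G → ℝ // w ∈ stdSimplex ℝ (Fin (n + 1) × G) ∧
    ∀ i g h, w (i, g) ≠ 0 → w (i, h) ≠ 0 → g = h}

/-- The subspace metric. -/
noncomputable instance (n : ℕ) : MetricSpace (EG G n) := Subtype.metricSpace

/-- The diagonal action, which sends the vertex `(i, h)` to `(i, g * h)`. -/
instance (n : ℕ) : MulAction G (EG G n) where
  smul g w := ⟨fun x => w.1 (x.1, g⁻¹ * x.2),
    ⟨fun _ => w.2.1.1 _, (Equiv.sum_comp ((Equiv.refl _).prodCongr (Equiv.mulLeft g⁻¹)) w.1).trans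
      w.2.1.2⟩, fun i _ _ h h' => mul_left_cancel (w.2.2 i _ _ h h')⟩
  one_smul w := Subtype.ext (funext fun x => congrArg w.1 (Prod.ext rfl (by simp)))
  mul_smul g h w := Subtype.ext (funext fun x => congrArg w.1
    (Prod.ext rfl (show (g * h)⁻¹ * x.2 = h⁻¹ * (g⁻¹ * x.2) by group)))

/-- The orbit space with the quotient topology. -/
abbrev BG (n : ℕ) : Type := Quotient (MulAction.orbitRel G (EG G n))

/-- The number of `k ≥ 1` with `TC r (BG G k) ≤ n`. -/
noncomputable def alpha (r n : ℕ) : ℕ := {k : ℕ | 1 ≤ k ∧ TC r (BG G k) ≤ n}.ncard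

end Pool.Agent.MP_826def_gt.H44
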