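import Pool.Agent.MP_826def_gt.H44.Defs

/-! The join as a space with a free isometric action; lifting of homotopy sections. -/

namespace Pool.Agent.MP_826def_gt.H44

open Set Filter Topology unitInterval

variable {G : Type} [Group G] [Fintype G] {k r : ℕ}

theorem smul_val (g : G) (w : EG G k) (i : Fin (k + 1)) (h : G) :
    (g • w).1 (i, h) = w.1 (i, g⁻¹ * h) := rfl

omit [Group G] in
theorem dist_val (w w' : EG G k) : dist w w' = dist w.1 w'.1 := rfl

omit [Group G] in
theorem cont_val : Continuous (fun w : EG G k => w.1) := continuous_subtype_val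

theorem dist_smul_le (g : G) (w w' : EG G k) : dist (g • w) (g • w') ≤ dist w w' :=
  (dist_pi_le_iff dist_nonneg).2 fun x => dist_le_pi_dist w.1 w'.1 (x.1, g⁻¹ * x.2)

instance : IsIsometricSMul G (EG G k) :=
  ⟨fun g => Isometry.of_dist_eq fun w w' => (dist_smul_le g w w').antisymm (by
    simpa using dist_smul_le g⁻¹ (g • w) (g • w'))⟩

omit [Group G] in
theorem exists_ne (w : EG G k) : ∃ x, w.1 x ≠ 0 := by
  by_contra h
  have := w.2.1.2
  rw [Finset.sum_eq_zero fun x _ => not_not.1 fun e => h ⟨x, e⟩] at this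
  exact zero_ne_one this

instance : IsCancelSMul G (EG G k) := isCancelSMul_iff_eq_one_of_smul_eq.2 fun g w h => by
  obtain ⟨⟨i, x⟩, hx⟩ := exists_ne w
  have := w.2.2 i _ _ (by rw [← smul_val, h]; exact hx : w.1 (i, g⁻¹ * x) ≠ 0) hx
  simpa using this

instance : CompactSpace (EG G k) := by
  have h : IsClosed {w : Fin (k + 1) × G → ℝ | ∀ i g h, w (i, g) ≠ 0 → w (i, h) ≠ 0 → g = h} := by
    have : {w : Fin (k + 1) × G → ℝ | ∀ i g h, w (i, g) ≠ 0 → w (i, h) ≠ 0 → g = h} =
        ⋂ i, ⋂ g, ⋂ h, ⋂ (_ : g ≠ h), {w | w (i, g) * w (i, h) = 0} := by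
      ext w
      simp only [mem_iInter, mem_ofPred_eq, mul_eq_zero]
      exact forall₃_congr fun i g h => by tauto
    rw [this]
    exact isClosed_iInter fun i => isClosed_iInter fun g => isClosed_iInter fun h =>
      isClosed_iInter fun _ => isClosed_eq (by fun_prop) continuous_const
  exact isCompact_iff_compactSpace.1 ((isCompact_stdSimplex ℝ (Fin (k + 1) × G)).inter_right h)

theorem cov : IsCoveringMap (Quotient.mk (MulAction.orbitRel G (EG G k))) :=
  isQuotientCoveringMap_quotientMk_of_properlyDiscontinuousSMul.isCoveringMap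

theorem mk_smul (g : G) (w : EG G k) :
    (Quotient.mk (MulAction.orbitRel G (EG G k)) (g • w)) = Quotient.mk _ w :=
  Quotient.sound (MulAction.orbitRel_apply.2 ⟨g, rfl⟩)

/-- The projection of the product. -/
def prj (x : Fin r → EG G k) : Fin r → BG G k := fun i => Quotient.mk _ (x i)

theorem prj_cont : Continuous (prj : (Fin r → EG G k) → _) :=
  continuous_pi fun i => continuous_quotient_mk'.comp (continuous_apply i)

theorem prj_smul (γ : Fin r → G) (x : Fin r → EG G k) : prj (γ • x) = prj x :=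
  funext fun i => mk_smul (γ i) (x i)

theorem lift_end {U : Set (Fin r → BG G k)} (s : C(U, BG G k))
    (h : ((diag r _).comp s).Homotopic ⟨Subtype.val, continuous_subtype_val⟩) :
    ∃ y : C(prj ⁻¹' U, Fin r → EG G k), (∀ a i j, ∃ g : G, g • y a j = y a i) ∧
      ∀ (γ : Fin r → G) a a', a'.1 = γ • a.1 → y a' = γ • y a := by
  obtain ⟨H⟩ := h.symm
  let q : C(prj ⁻¹' U, U) :=
    ⟨fun a => ⟨prj a.1, a.2⟩, (prj_cont.comp continuous_subtype_val).subtype_mk _⟩
  let K : Fin r → C(I × (prj ⁻¹' U), BG G k) := fun i =>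
    ⟨fun z => H (z.1, q z.2) i, by fun_prop⟩
  let f : Fin r → C(prj ⁻¹' U, EG G k) := fun i =>
    ⟨fun a => a.1 i, (continuous_apply i).comp continuous_subtype_val⟩
  have h0 : ∀ i a, K i (0, a) = Quotient.mk _ (f i a) := fun i a =>
    congrFun (H.apply_zero (q a)) i
  let L := fun i => cov.liftHomotopy (K i) (f i) (h0 i)
  have h1 : ∀ i z, Quotient.mk _ (L i z) = K i z := fun i =>
    congrFun (cov.liftHomotopy_lifts (K i) (f i) (h0 i))
  have h2 : ∀ i a, L i (0, a) = f i a := fun i => cov.liftHomotopy_zero (K i) (f i) (h0 i)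
  refine ⟨⟨fun a i => L i (1, a), by fun_prop⟩, fun a i j => ?_, fun γ a a' e => funext fun i => ?_⟩
  · exact MulAction.orbitRel_apply.1 (Quotient.exact ((h1 i _).trans
      ((congrFun (H.apply_one (q a)) i).trans ((h1 j _).trans
        (congrFun (H.apply_one (q a)) j)).symm)))
  · have e' : q a' = q a := Subtype.ext ((congrArg prj e).trans (prj_smul γ a.1))
    refine congrFun (cov.eq_of_comp_eq (g₁ := fun t : I => L i (t, a'))
      (g₂ := fun t : I => γ i • L i (t, a)) (by fun_prop) (by fun_prop) (funext fun t => ?_) 0 ?_) 1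
    · simp only [Function.comp_apply, mk_smul, h1]
      exact congrArg (fun z => H (t, z) i) e'
    · rw [h2, h2]
      exact congrFun e i

/-- The twisted action on tuples of group elements. -/
def tw (i₁ : Fin r) (γ φ : Fin r → G) : Fin r → G := fun i => γ i * φ i * (γ i₁)⁻¹

theorem lift_phi (i₁ : Fin r) {U : Set (Fin r → BG G k)} (hU : IsOpen U) (s : C(U, BG G k))
    (h : ((diag r _).comp s).Homotopic ⟨Subtype.val, continuous_subtype_val⟩) :
    ∃ φ : (Fin r → EG G k) → Fin r → G, (∀ ψ, IsOpen {x | prj x ∈ U ∧ φ x = ψ}) ∧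
      ∀ (γ : Fin r → G) x, prj x ∈ U → φ (γ • x) = tw i₁ γ (φ x) := by
  classical
  obtain ⟨y, h1, h2⟩ := lift_end s h
  choose g hg using fun a i => h1 a i i₁
  refine ⟨fun x => if hx : prj x ∈ U then g ⟨x, hx⟩ else 1, fun ψ => ?_, fun γ x hx => ?_⟩
  · have : {x | prj x ∈ U ∧ (if hx : prj x ∈ U then g ⟨x, hx⟩ else 1) = ψ} = Subtype.val ''
        ⋂ i, ⋂ g' ∈ ({ψ i}ᶜ : Set G), {a | g' • y a i₁ = y a i}ᶜ := by
      ext x
      simp only [mem_ofPred_eq, mem_image, mem_iInter, mem_compl_iff, mem_singleton_iff]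
      constructor
      · rintro ⟨hx, e⟩
        rw [dif_pos hx] at e
        exact ⟨⟨x, hx⟩, fun i g' hg' e' => hg' (e ▸ IsCancelSMul.right_cancel _ _ _
          (e'.trans (hg _ i).symm)), rfl⟩
      · rintro ⟨a, ha, rfl⟩
        exact ⟨a.2, (dif_pos a.2).trans (funext fun i => not_not.1 fun e => ha i _ e (hg a i))⟩
    rw [this]
    exact (hU.preimage prj_cont).isOpenMap_subtype_val _ (isOpen_iInter_of_finite fun i =>
      (toFinite _).isOpen_biInter fun g' _ => (isClosed_eq (by fun_prop) (by fun_prop)).isOpen_compl)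
  · have hx' : prj (γ • x) ∈ U := by rwa [prj_smul]
    beta_reduce
    rw [dif_pos hx, dif_pos hx']
    funext i
    have e := h2 γ ⟨x, hx⟩ ⟨_, hx'⟩ rfl
    refine IsCancelSMul.right_cancel _ _ (y ⟨_, hx'⟩ i₁) ((hg _ i).trans ?_)
    rw [e, tw, Pi.smul_apply', Pi.smul_apply', mul_smul, inv_smul_smul, mul_smul, hg]

theorem vertex (i₁ : Fin r) {N : ℕ} (h : Cov (diag r (BG G k)) N) :
    ∃ δ > 0, ∃ v : (Fin r → EG G k) → Fin (N + 1) × (Fin r → G),
      (∀ (γ : Fin r → G) x, v (γ • x) = ((v x).1, tw i₁ γ (v x).2)) ∧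
      ∀ x x', dist x x' ≤ δ → (v x).1 = (v x').1 → v x = v x' := by
  obtain ⟨U, hU, hc, hs⟩ := h
  choose s hs using hs
  choose φ h1 h2 using fun j => lift_phi i₁ (hU j) (s j) (hs j)
  obtain ⟨δ, hδ, h3⟩ := lebesgue_number_lemma_of_metric (isCompact_univ (X := Fin r → EG G k))
    (c := fun z : Fin (N + 1) × (Fin r → G) => {x | prj x ∈ U z.1 ∧ φ z.1 x = z.2})
    (fun z => h1 z.1 z.2) fun x _ => by
      obtain ⟨j, hj⟩ := mem_iUnion.1 (hc ▸ mem_univ (prj x))
      exact mem_iUnion.2 ⟨(j, φ j x), hj, rfl⟩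
  let P : (Fin r → EG G k) → Fin (N + 1) → Prop := fun x j =>
    ∀ x', dist x' x ≤ δ / 2 → prj x' ∈ U j ∧ φ j x' = φ j x
  have h4 : ∀ x, P x (Classical.epsilon (P x)) := fun x => Classical.epsilon_spec (p := P x) <| by
    obtain ⟨z, hz⟩ := h3 x trivial
    refine ⟨z.1, fun x' hx' => ?_⟩
    have a := hz (show x' ∈ Metric.ball x δ from hx'.trans_lt (half_lt_self hδ))
    exact ⟨a.1, a.2.trans (hz (Metric.mem_ball_self hδ)).2.symm⟩
  have h5 : ∀ (γ : Fin r → G) x j, P x j → P (γ • x) j := fun γ x j hx x' hx' => by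
    have a := hx (γ⁻¹ • x') (by rwa [← dist_smul γ, smul_inv_smul])
    have a' := h2 j γ _ a.1
    rw [smul_inv_smul] at a'
    exact ⟨prj_smul γ⁻¹ x' ▸ a.1, by
      rw [a', a.2, h2 j γ x (hx x (by simpa using (half_pos hδ).le)).1]⟩
  refine ⟨δ / 2, half_pos hδ, fun x => (Classical.epsilon (P x), φ (Classical.epsilon (P x)) x),
    fun γ x => ?_, fun x x' hx e => Prod.ext e ?_⟩
  · have : P (γ • x) = P x := funext fun j => propext
      ⟨fun a => by simpa using h5 γ⁻¹ _ j a, h5 γ x j⟩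
    simp only [this, h2 _ γ x (h4 x x (by simpa using (half_pos hδ).le)).1]
  · simp only at e ⊢
    rw [e]
    exact (h4 x' x hx).2

end Pool.Agent.MP_826def_gt.H44
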