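import Pool.Agent.MP_826def_gt.H44.Sys
import Pool.Agent.MP_826def_gt.H44.Geo

/-! The lower bound. -/

namespace Pool.Agent.MP_826def_gt.H44

open Set
open Finsupp hiding some
open MonoidAlgebra (of)

section Abs

/-- The action on lists. -/
instance listAct {T Ω : Type} [Group T] [MulAction T Ω] : MulAction T (List Ω) where
  smul g l := l.map (g • ·)
  one_smul l := show l.map _ = l by simp
  mul_smul g h l := show l.map _ = (l.map _).map _ by simp [mul_smul]

theorem list_smul {T Ω : Type} [Group T] [MulAction T Ω] (g : T) (l : List Ω) :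
    g • l = l.map (g • ·) := rfl

variable {F : Type} [Field F] {κ : Type} [Fintype κ] [LinearOrder κ] {p : ℕ} [Fact p.Prime]
  [CharP F p] {X V : Type} [MulAction (TT p κ) X] [MulAction (TT p κ) V]

omit [Fintype κ] [LinearOrder κ] [CharP F p] in
theorem act_cm (g : TT p κ) (z : List X →₀ F) : act F _ (List X) (of F _ g) z = cm (g • ·) z :=
  lin_eq (fun l => by rw [act_of, cm_single, list_smul]) z

omit [Fintype κ] [LinearOrder κ] [CharP F p] in
theorem bd_act (x : MonoidAlgebra F (TT p κ)) (z : List X →₀ F) :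
    bd (act F _ (List X) x z) = act F _ (List X) x (bd z) :=
  act_comm (fun g l => by rw [act_cm, ← bd_cm, cm_single, list_smul]) x z

omit [Fintype κ] [CharP F p] in
theorem act_uu (lam : F) (i₀ i : κ) (z : List X →₀ F) : act F _ (List X) (uu p lam i₀ i) z =
    (cm (tau p (some i) • ·) z - z) +
      if i = i₀ then lam • (cm (tau p (none : Option κ) • ·) z - z) else 0 := by
  rw [uu, ← act_cm, ← act_cm]
  split_ifs <;> simp

theorem inc_le {col : V → ℕ} {N : ℕ} (h : ∀ v, col v < N) {l : List V} (hl : Inc col l) :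
    l.length ≤ N := by
  have h1 : (l.map col).Nodup := (List.pairwise_map.2 hl).imp fun e => e.ne
  have := Finset.card_le_card (show (l.map col).toFinset ⊆ Finset.range N from fun x hx => by
    obtain ⟨v, -, rfl⟩ := List.mem_map.1 (List.mem_toFinset.1 hx)
    exact Finset.mem_range.2 (h v))
  rwa [List.toFinset_card_of_nodup h1, List.length_map, Finset.card_range] at this

theorem src [PseudoMetricSpace X] (lam : F) (i₀ : κ)
    (hX : ∀ (g : TT p κ) (x y : X), dist (g • x) (g • y) ≤ dist x y) {k : ℕ} {η : ℝ} (hη : 0 < η)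
    {K : (κ → ℕ) → Set X} (hK : ∀ n, (∀ j, n j ≤ k) → Star (K n) η)
    (hK' : ∀ n i, (∀ j, n j ≤ k) → n i ≠ 0 → ∃ L, K (dn n i) ⊆ L ∧ L ⊆ K n ∧
      (∀ x ∈ L, tau p (some i) • x ∈ L) ∧ (i = i₀ → ∀ x ∈ L, tau p (none : Option κ) • x ∈ L)) :
    ∃ c : (κ → ℕ) → List X →₀ F, ∀ n, (∀ j, n j ≤ k) →
      c n ∈ supported F F (Fn (K n) ((∑ j, n j + 1 : ℕ) * η) (∑ j, n j + 1)) ∧
        bd (c n) = rhs (act F _ (List X)) (uu p lam i₀) p (single [] 1) c n := by
  refine exists_sys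
    (S' := fun n => supported F F (Fn (K n) ((∑ j, n j : ℕ) * η) (∑ j, n j)))
    (Fact.out : p.Prime).two_le (uu_pow lam i₀) (fun i => by simp [act_uu]) (by simp [bdL]) bd_act
    (single_mem_supported F _ ⟨by simp, by simp, by simp⟩) (fun n i a hn hi z hz => ?_)
    fun n hn z hz h0 => ?_
  · obtain ⟨L, a1, a2, a3, a4⟩ := hK' n i hn hi
    rw [sum_dn hi (Finset.mem_univ i)] at hz
    refine smono (S := Fn L _ _) ?_ (Fn_mono a2 le_rfl _)
    have b1 : ∀ g : TT p κ, (∀ x ∈ L, g • x ∈ L) → ∀ (d : ℝ) m,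
        ∀ z ∈ supported F F (Fn L d m), cm (g • ·) z - z ∈ supported F F (Fn L d m) :=
      fun g hg d m z hz => Submodule.sub_mem _ (supp_map (fun l hl => by
        rw [cm_single]
        exact single_mem_supported F _ ⟨by simp [hl.1],
          List.forall_mem_map.2 fun x hx => hg x (hl.2.1 x hx),
          List.forall_mem_map.2 fun x hx => List.forall_mem_map.2 fun y hy =>
            (hX g x y).trans (hl.2.2 x hx y hy)⟩) hz) hz
    induction a with
    | zero => simpa using smono hz (Fn_mono a1 le_rfl _)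
    | succ a ih =>
      rw [pow_succ', act_mul, act_uu]
      refine Submodule.add_mem _ (b1 _ a3 _ _ _ ih) ?_
      split_ifs with h
      · exact Submodule.smul_mem _ _ (b1 _ (a4 h) _ _ _ ih)
      · exact Submodule.zero_mem _
  · simpa only [Nat.cast_add, Nat.cast_one, add_mul, one_mul] using
      (hK n hn).cone (by positivity) hη.le hz h0

theorem tgt {lam : F} (hl : ∀ a b : ZMod p, a ≠ 0 ∨ b ≠ 0 → (b.val : F) ≠ a.val * lam) (i₀ i₁ : κ)
    {col : V → ℕ} {k : ℕ} (hc : ∀ (g : TT p κ) v, col (g • v) = col v)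
    (hV : ∀ (g : TT p κ) (v : V), g • v = v → g ≠ 1 →
      g.toAdd (some i₁) ≠ 0 ∧ (g.toAdd (some i₀) ≠ 0 ∨ g.toAdd none ≠ 0))
    {d : (κ → ℕ) → List V →₀ F} (hd : ∀ n, (∀ j, n j ≤ k) →
      d n ∈ supported F F {l : List V | Inc col l ∧ l.length = ∑ j, n j + 1} ∧
        bd (d n) = rhs (act F _ (List V)) (uu p lam i₀) p (single [] 1) d n) :
    d (fun _ => k) ≠ 0 := by
  have hS : ∀ m (g : TT p κ), ∀ l ∈ {l : List V | Inc col l ∧ l.length = m},
      g • l ∈ {l : List V | Inc col l ∧ l.length = m} := fun m g l hl =>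
    ⟨List.pairwise_map.2 (hl.1.imp fun h => by rwa [hc, hc]), (List.length_map _).trans hl.2⟩
  refine top_ne (D := fun m => supported F F {l : List V | Inc col l ∧ l.length = m})
    (ε := lapply []) (Fact.out : p.Prime).two_le (uu_pow lam i₀) bd_act bd_bd
    (fun m x z hz => act_mem (hS m) x hz) (fun m z hz => bd_mem (fun l hl l' a1 a2 => ?_) hz)
    (fun m i a a' h ν => ex_perm (hS (m + 1)) (fun l hl' => ?_) i h ν) (by simp) (fun j z => ?_) hd
  · exact ⟨hl.1.sublist a1, by have := hl.2; omega⟩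
  · obtain ⟨v, l, rfl⟩ := List.exists_cons_of_length_eq_add_one hl'.2
    exact H44.col hl i₀ i₁ fun g hg =>
      hV g v (List.cons.inj (show g • v :: _ = v :: l from hg)).1
  · have : ∀ g : TT p κ, cm (g • ·) z [] = z [] := fun g =>
      lin_eq (L := lapply [] ∘ₗ cm (g • ·)) (L' := lapply []) (fun l => by cases l <;> simp) z
    rw [act_uu]
    split_ifs <;> simp [this]

theorem main_abs [PseudoMetricSpace X] {lam : F}
    (hl : ∀ a b : ZMod p, a ≠ 0 ∨ b ≠ 0 → (b.val : F) ≠ a.val * lam) (i₀ i₁ : κ)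
    (hX : ∀ (g : TT p κ) (x y : X), dist (g • x) (g • y) ≤ dist x y)
    {col : V → ℕ} {N k : ℕ} (hN : ∀ v, col v < N + 1) (hc : ∀ (g : TT p κ) v, col (g • v) = col v)
    (hV : ∀ (g : TT p κ) (v : V), g • v = v → g ≠ 1 →
      g.toAdd (some i₁) ≠ 0 ∧ (g.toAdd (some i₀) ≠ 0 ∨ g.toAdd none ≠ 0))
    {vt : X → V} (hv : ∀ (g : TT p κ) x, vt (g • x) = g • vt x) {δ : ℝ} (hδ : 0 < δ)
    (hv' : ∀ x y, dist x y ≤ δ → col (vt x) = col (vt y) → vt x = vt y) {K : (κ → ℕ) → Set X}
    (hK : ∀ n, (∀ j, n j ≤ k) → ∀ η > 0, Star (K n) η)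
    (hK' : ∀ n i, (∀ j, n j ≤ k) → n i ≠ 0 → ∃ L, K (dn n i) ⊆ L ∧ L ⊆ K n ∧
      (∀ x ∈ L, tau p (some i) • x ∈ L) ∧ (i = i₀ → ∀ x ∈ L, tau p (none : Option κ) • x ∈ L)) :
    Fintype.card κ * k ≤ N := by
  obtain ⟨η, hη, hη'⟩ : ∃ η > 0, ((Fintype.card κ * k + 1 : ℕ) : ℝ) * η = δ :=
    ⟨δ / (Fintype.card κ * k + 1 : ℕ), by positivity, mul_div_cancel₀ _ (by positivity)⟩
  obtain ⟨c, hc'⟩ := src lam i₀ hX hη (fun n hn => hK n hn η hη) hK'
  obtain ⟨Φ, f1⟩ : ∃ Φ : (List X →₀ F) →ₗ[F] (List V →₀ F), ∀ z, Φ z = srt col (cm vt z) :=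
    ⟨srt col ∘ₗ cm vt, fun _ => rfl⟩
  have f2 : ∀ x z, Φ (act F (TT p κ) (List X) x z) = act F _ (List V) x (Φ z) :=
    act_comm fun g l => by
      rw [act_cm, f1, f1, cm_single, cm_single, srt_single, srt_single, ← cm_srtL (hc g), list_smul,
        List.map_map, List.map_map]
      exact congrArg (fun f => srtL col (l.map f)) (funext (hv g))
  have f3 : ∀ n, (∀ j, n j ≤ k) →
      Φ (c n) ∈ supported F F {l : List V | Inc col l ∧ l.length = ∑ j, n j + 1} := fun n hn =>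
    supp_map (fun l hl => by
      rw [f1, cm_single, srt_single]
      exact smono (srtL_mem _) fun l' h => ⟨h.1, h.2.1.trans ((List.length_map _).trans hl.1)⟩)
      (hc' n hn).1
  have f4 : ∀ n, (∀ j, n j ≤ k) → bd (Φ (c n)) = Φ (bd (c n)) := fun n hn => by
    have a1 : ((∑ j, n j + 1 : ℕ) : ℝ) * η ≤ δ := by
      rw [← hη']
      exact mul_le_mul_of_nonneg_right (Nat.cast_le.2 (Nat.succ_le_succ
        ((Finset.sum_le_card_nsmul _ _ k fun j _ => hn j).trans (by simp)))) hη.le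
    refine supp_eq (L := bd ∘ₗ Φ) (L' := Φ ∘ₗ bd) (fun l hl => ?_) (hc' n hn).1
    rw [LinearMap.comp_apply, LinearMap.comp_apply, f1, f1, ← bd_cm, cm_single, srt_single,
      bd_single, bd_srtL (List.forall_mem_map.2 fun x hx =>
        List.forall_mem_map.2 fun y hy => hv' x y ((hl.2.2 x hx y hy).trans a1))]
  have key := tgt hl i₀ i₁ hc hV (d := fun n => Φ (c n)) fun n hn => ⟨f3 n hn, by
    rw [f4 n hn, (hc' n hn).2]
    simp only [rhs, map_add, map_sum, map_smul, f2]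
    split_ifs
    · rw [f1, cm_single, srt_single]; rfl
    · rw [map_zero]⟩
  obtain ⟨l, hl'⟩ := Finsupp.support_nonempty_iff.2 key
  have := (mem_supported F _).1 (f3 (fun _ => k) fun _ => le_rfl) hl'
  have h2 := inc_le hN this.1
  rw [this.2] at h2
  simpa using h2

end Abs

end Pool.Agent.MP_826def_gt.H44
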