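import Pool.Agent.MP_826def_gt.H44.Low

/-! The lower bound for the join construction. -/

namespace Pool.Agent.MP_826def_gt.H44

open Set

variable {G : Type} [Fintype G] [DecidableEq G] {k r : ℕ}

/-- Moving a point towards two vertices. -/
noncomputable def mix (w : EG G k) (i i' : Fin (k + 1)) (g : G)
    (hg : ∀ h, w.1 (i, h) ≠ 0 → h = g) (a b c : ℝ) (ha : 0 ≤ a) (hb : 0 ≤ b) (hc : 0 ≤ c)
    (hs : a + b + c = 1) (hac : a = 0 ∨ c = 0) : EG G k :=
  ⟨a • w.1 + b • Pi.single (i, g) 1 + c • Pi.single (i', g) 1, ⟨fun x => by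
      have := w.2.1.1 x
      simp only [Pi.add_apply, Pi.smul_apply, smul_eq_mul, Pi.single_apply]
      positivity, by
      simp [Finset.sum_add_distrib, ← Finset.mul_sum, w.2.1.2, hs]⟩, by
    have key : ∀ j x, (a • w.1 + b • Pi.single (i, g) 1 + c • Pi.single (i', g) 1 :
        Fin (k + 1) × G → ℝ) (j, x) ≠ 0 →
        (a ≠ 0 ∧ w.1 (j, x) ≠ 0) ∨ (x = g ∧ (j = i ∨ c ≠ 0)) := fun j x h => by
      by_contra hn
      simp only [not_or, not_and, not_not] at hn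
      refine h ?_
      by_cases e : x = g
      · by_cases e' : a = 0 <;> simp [hn.2 e, hn.1, e']
      · by_cases e' : a = 0 <;> simp [e, hn.1, e']
    intro j x y hx hy
    rcases key j x hx with ⟨a1, a2⟩ | ⟨rfl, a2⟩ <;> rcases key j y hy with ⟨b1, b2⟩ | ⟨b1, b2⟩
    · exact w.2.2 j x y a2 b2
    · rw [b1]
      exact hg x ((b2.resolve_right fun e => e (hac.resolve_left a1)) ▸ a2)
    · exact (hg y ((a2.resolve_right fun e => e (hac.resolve_left b1)) ▸ b2)).symm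
    · exact b1.symm⟩

/-- A vertex. -/
noncomputable def vx (i : Fin (k + 1)) (g : G) : EG G k :=
  ⟨Pi.single (i, g) 1, single_mem_stdSimplex ℝ _, fun _ _ _ hx hy =>
    (Prod.ext_iff.1 (not_not.1 fun e => hx (Pi.single_eq_of_ne e _))).2.trans
      (Prod.ext_iff.1 (not_not.1 fun e => hy (Pi.single_eq_of_ne e _))).2.symm⟩

variable [Group G]

/-- The cone with apex `(m, 1)` over the join of the first `m` copies. -/
def cell (m : ℕ) : Set (EG G k) := {w | ∀ i g, w.1 (i, g) ≠ 0 → i.val < m ∨ (i.val = m ∧ g = 1)}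

theorem star1 {m : ℕ} (hm : m ≤ k) : ∃ (v : EG G k) (f : ℝ → EG G k → EG G k), v ∈ cell m ∧
    (∀ w ∈ cell m, f 0 w = w ∧ f 1 w = v ∧ ∀ t ∈ Icc (0 : ℝ) 1, f t w ∈ cell m ∧
      (∀ t' ∈ Icc (0 : ℝ) 1, dist (f t w) (f t' w) ≤ |t - t'|) ∧
        ∀ w' ∈ cell m, dist (f t w) (f t w') ≤ dist w w') := by
  classical
  let i : Fin (k + 1) := ⟨m, Nat.lt_succ_of_le hm⟩
  have h0 : ∀ w ∈ cell (G := G) (k := k) m, ∀ h, w.1 (i, h) ≠ 0 → h = 1 := fun w hw h e =>
    ((hw i h e).resolve_left (lt_irrefl m)).2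
  let f : ℝ → EG G k → EG G k := fun t w => if h : w ∈ cell m ∧ t ∈ Icc (0 : ℝ) 1 then
    mix w i i 1 (h0 w h.1) (1 - t) t 0 (sub_nonneg.2 h.2.2) h.2.1 le_rfl (by ring) (Or.inr rfl)
    else w
  have h1 : ∀ w ∈ cell m, ∀ t ∈ Icc (0 : ℝ) 1, ∀ x,
      (f t w).1 x = (1 - t) * w.1 x + t * (vx i (1 : G)).1 x := fun w hw t ht x => by
    simp only [f]
    rw [dif_pos ⟨hw, ht⟩]
    simp [mix, vx]
  have h2 : vx i 1 ∈ cell (G := G) (k := k) m := fun j g h => by
    obtain ⟨rfl, rfl⟩ := Prod.ext_iff.1 (not_not.1 fun e => h (Pi.single_eq_of_ne e _))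
    exact Or.inr ⟨rfl, rfl⟩
  refine ⟨vx i 1, f, h2, fun w hw => ⟨Subtype.ext (funext fun x => by simp [h1 w hw]),
    Subtype.ext (funext fun x => by simp [h1 w hw]), fun t ht => ⟨fun j g h => ?_,
      fun t' ht' => (dist_pi_le_iff (abs_nonneg _)).2 fun x => ?_,
      fun w' hw' => (dist_pi_le_iff dist_nonneg).2 fun x => ?_⟩⟩⟩
  · rw [h1 w hw t ht] at h
    by_cases e : w.1 (j, g) = 0
    · exact h2 j g fun e' => h (by rw [e, e']; simp)
    · exact hw j g e
  · rw [h1 w hw t ht, h1 w hw t' ht', Real.dist_eq, show (1 - t) * w.1 x + t * (vx i 1).1 x -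
      ((1 - t') * w.1 x + t' * (vx i 1).1 x) = (t - t') * ((vx i 1).1 x - w.1 x) by ring, abs_mul]
    have a := mem_Icc_of_mem_stdSimplex w.2.1 x
    have b := mem_Icc_of_mem_stdSimplex (vx i (1 : G)).2.1 x
    exact mul_le_of_le_one_right (abs_nonneg _)
      (abs_le.2 ⟨by linarith [a.2, b.1], by linarith [a.1, b.2]⟩)
  · rw [h1 w hw t ht, h1 w' hw' t ht, dist_add_right, Real.dist_eq, ← mul_sub, abs_mul,
      abs_of_nonneg (sub_nonneg.2 ht.2)]
    exact (mul_le_of_le_one_left (abs_nonneg _) (by linarith [ht.1])).trans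
      (dist_le_pi_dist w.1 w'.1 x)

theorem star (n : Fin r → ℕ) (hn : ∀ j, n j ≤ k) {η : ℝ} (hη : 0 < η) :
    Star {x : Fin r → EG G k | ∀ j, x j ∈ cell (n j)} η := by
  choose v f h1 h2 using fun j => star1 (G := G) (hn j)
  obtain ⟨M, hM⟩ := exists_nat_one_div_lt hη
  have h0 : (0 : ℝ) < M + 1 := by positivity
  have h3 : ∀ s : ℕ, min ((s : ℝ) / (M + 1)) 1 ∈ Icc (0 : ℝ) 1 := fun s =>
    ⟨le_min (by positivity) zero_le_one, min_le_right _ _⟩
  refine ⟨M + 1, v, fun s x j => f j (min (s / (M + 1)) 1) (x j), h1, fun x hx =>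
    ⟨funext fun j => by simpa using (h2 j _ (hx j)).1, funext fun j => ?_, fun s =>
      ⟨fun j => ((h2 j _ (hx j)).2.2 _ (h3 s)).1, (dist_pi_le_iff hη.le).2 fun j =>
        (((h2 j _ (hx j)).2.2 _ (h3 s)).2.1 _ (h3 (s + 1))).trans ?_⟩⟩,
    fun s x hx y hy => (dist_pi_le_iff dist_nonneg).2 fun j =>
      (((h2 j _ (hx j)).2.2 _ (h3 s)).2.2 _ (hy j)).trans (dist_le_pi_dist x y j)⟩
  · simpa [div_self h0.ne'] using (h2 j _ (hx j)).2.1
  · refine (abs_min_sub_min_le_max _ _ _ _).trans (max_le ?_ (by simpa using hη.le))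
    rw [← sub_div, Nat.cast_succ, sub_add_cancel_left, abs_div, abs_neg, abs_one, abs_of_pos h0]
    exact hM.le

theorem exists_lam (p : ℕ) [Fact p.Prime] : ∃ lam : AlgebraicClosure (ZMod p),
    ∀ a b : ZMod p, a ≠ 0 ∨ b ≠ 0 → (b.val : AlgebraicClosure (ZMod p)) ≠ a.val * lam := by
  obtain ⟨lam, h⟩ := (finite_range (algebraMap (ZMod p) (AlgebraicClosure (ZMod p)))).exists_notMem
  refine ⟨lam, fun a b hab e => ?_⟩
  have k : ∀ c : ZMod p, (c.val : AlgebraicClosure (ZMod p)) = algebraMap (ZMod p) _ c := fun c => by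
    rw [← map_natCast (algebraMap (ZMod p) _), ZMod.natCast_zmod_val]
  rw [k, k] at e
  by_cases ha : a = 0
  · rw [ha, map_zero, zero_mul, map_eq_zero] at e
    exact hab.elim (fun h => h ha) fun h => h e
  · exact h ⟨b / a, by rw [map_div₀, e, mul_div_cancel_left₀ _ ((map_ne_zero _).2 ha)]⟩

theorem lower {p : ℕ} [Fact p.Prime] (φ : Multiplicative (ZMod p × ZMod p) →* G)
    (hφ : Function.Injective φ) (hr : 2 ≤ r) {N : ℕ} (h : Cov (diag r (BG G k)) N) :
    r * k ≤ N := by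
  let i₀ : Fin r := ⟨0, by omega⟩
  let i₁ : Fin r := ⟨1, by omega⟩
  have hi : i₁ ≠ i₀ := fun e => one_ne_zero (congrArg Fin.val e)
  obtain ⟨δ, hδ, v, h1, h2⟩ := vertex i₁ h
  obtain ⟨lam, hl⟩ := exists_lam p
  let ρ : TT p (Fin r) →* (Fin r → G) :=
    { toFun := fun t i => φ (Multiplicative.ofAdd
        (t.toAdd (some i), if i = i₀ then t.toAdd none else 0))
      map_one' := funext fun i => (congrArg φ (by simp)).trans (map_one φ)
      map_mul' := fun a b => funext fun i => by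
        rw [Pi.mul_apply, ← map_mul, ← ofAdd_add]
        split_ifs <;> simp }
  have r1 : ∀ t i, ρ t i = 1 ↔ t.toAdd (some i) = 0 ∧ (i = i₀ → t.toAdd none = 0) := fun t i => by
    simp [ρ, map_eq_one_iff φ hφ]
  let _ : MulAction (TT p (Fin r)) (Fin r → EG G k) := MulAction.compHom _ ρ
  let _ : MulAction (TT p (Fin r)) (Fin (N + 1) × (Fin r → G)) :=
    { smul := fun t z => (z.1, tw i₁ (ρ t) z.2)
      one_smul := fun z => Prod.ext rfl (funext fun i => show tw i₁ (ρ 1) z.2 i = _ by simp [tw])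
      mul_smul := fun a b z => Prod.ext rfl (funext fun i =>
        show tw i₁ (ρ (a * b)) z.2 i = tw i₁ (ρ a) (tw i₁ (ρ b) z.2) i by simp [tw, mul_assoc]) }
  have key := main_abs (X := Fin r → EG G k) (col := fun z : Fin (N + 1) × (Fin r → G) => z.1.val)
    (K := fun n => {x | ∀ j, x j ∈ cell (n j)}) (k := k) hl i₀ i₁
    (fun g x y => (dist_smul (ρ g) x y).le) (fun z => z.1.2) (fun _ _ => rfl)
    (fun g z e hg => ?_) (fun g x => h1 (ρ g) x) hδ (fun x y a b => h2 x y a (Fin.ext b))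
    (fun n hn η hη => star n hn hη) fun n i hn hi => ?_
  · simpa using key
  · have e' : ∀ i, ρ g i * z.2 i * (ρ g i₁)⁻¹ = z.2 i := congrFun (congrArg Prod.snd e)
    have a : ρ g i₁ ≠ 1 := fun h => hg (Multiplicative.toAdd.injective (funext fun o => by
      have b : ∀ i, ρ g i = 1 := fun i => by simpa [h] using e' i
      cases o with
      | none => exact ((r1 g i₀).1 (b i₀)).2 rfl
      | some j => exact ((r1 g j).1 (b j)).1))
    refine ⟨fun h => a ((r1 g i₁).2 ⟨h, fun e => absurd e hi⟩), not_and_or.1 fun h => a ?_⟩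
    simpa [(r1 g i₀).2 ⟨h.1, fun _ => h.2⟩] using e' i₀
  · have a : ∀ g : TT p (Fin r), (∀ j ≠ i, ρ g j = 1) → ∀ x ∈ {x : Fin r → EG G k |
        (∀ j ≠ i, x j ∈ cell (n j)) ∧ ∀ l y, (x i).1 (l, y) ≠ 0 → l.val < n i},
        g • x ∈ {x : Fin r → EG G k |
          (∀ j ≠ i, x j ∈ cell (n j)) ∧ ∀ l y, (x i).1 (l, y) ≠ 0 → l.val < n i} :=
      fun g hg x hx => ⟨fun j hj => by
        rw [show (g • x) j = ρ g j • x j from rfl, hg j hj, one_smul]
        exact hx.1 j hj, fun l y h => hx.2 l _ h⟩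
    refine ⟨{x | (∀ j ≠ i, x j ∈ cell (n j)) ∧ ∀ l y, (x i).1 (l, y) ≠ 0 → l.val < n i},
      fun x hx => ⟨fun j hj => dn_ne n hj ▸ hx j, fun l y h => ?_⟩, fun x hx j => ?_,
      a _ fun j hj => (r1 _ j).2 (by simp [tau, hj]),
      fun e => a _ fun j hj => (r1 _ j).2 (by simp [tau, ← e, hj])⟩
    · have := hx i l y h
      rw [dn_self] at this
      omega
    · by_cases e : j = i
      · exact fun l y h => Or.inl (e ▸ hx.2 l y (e ▸ h))
      · exact hx.1 j e

end Pool.Agent.MP_826def_gt.H44
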