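import Mathlib

/-! Systems of parameters in truncated polynomial algebras. -/

namespace Pool.Agent.MP_826def_gt.H44

open MvPolynomial Set Module

variable {F Λ ι : Type} [Field F] [CommRing Λ] [Algebra F Λ] [Fintype ι] {p : ℕ} {t : ι → Λ}

theorem aeval_surj (ht : ∀ i, t i ^ p = 0)
    (hs : ∀ z, ∃ c : F, z - algebraMap F Λ c ∈ Ideal.span (range t)) :
    Function.Surjective (aeval t : MvPolynomial ι F →ₐ[F] Λ) := by
  obtain ⟨N, hN⟩ : IsNilpotent (Ideal.span (range t)) :=
    (Ideal.FG.isNilpotent_iff_le_nilradical (Submodule.fg_span (finite_range t))).2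
      (Ideal.span_le.2 (by rintro _ ⟨i, rfl⟩; exact ⟨p, ht i⟩))
  have h : ∀ n z, ∃ f : MvPolynomial ι F, z - aeval t f ∈ Ideal.span (range t) ^ n := by
    intro n
    induction n with
    | zero => exact fun z => ⟨0, by simp⟩
    | succ n ih =>
      intro z
      obtain ⟨c, hc⟩ := hs z
      obtain ⟨w, hw⟩ := Ideal.mem_span_range_iff_exists_fun.1 hc
      choose f hf using fun i => ih (w i)
      refine ⟨C c + ∑ i, f i * X i, ?_⟩
      have : z - aeval t (C c + ∑ i, f i * X i) = ∑ i, (w i - aeval t (f i)) * t i := by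
        simp only [map_add, map_sum, map_mul, aeval_X, aeval_C, sub_mul, Finset.sum_sub_distrib, hw]
        ring
      rw [this, pow_succ]
      exact Ideal.sum_mem _ fun i _ => Ideal.mul_mem_mul (hf i) (Ideal.subset_span ⟨i, rfl⟩)
  intro z
  obtain ⟨f, hf⟩ := h N z
  rw [hN] at hf
  exact ⟨f, (sub_eq_zero.1 hf).symm⟩

theorem mono_mem {J : Ideal Λ} {m : ι →₀ ℕ} (c : F) {i : ι} {a : ℕ} (h : a ≤ m i)
    (hJ : t i ^ a ∈ J) : aeval t (monomial m c) ∈ J := by
  classical
  rw [aeval_monomial, Finsupp.prod_fintype _ _ fun _ => pow_zero _]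
  exact J.mul_mem_left _ (J.mem_of_dvd ((pow_dvd_pow _ h).trans
    (Finset.dvd_prod_of_mem (fun j => t j ^ m j) (Finset.mem_univ i))) hJ)

theorem ker_coeff (hd : finrank F Λ = p ^ Fintype.card ι) (hp : 0 < p) (ht : ∀ i, t i ^ p = 0)
    (hs : Function.Surjective (aeval t : MvPolynomial ι F →ₐ[F] Λ)) {f : MvPolynomial ι F}
    (hf : aeval t f = 0) {m : ι →₀ ℕ} (hm : ∀ i, m i < p) : coeff m f = 0 := by
  classical
  let e : (ι → Fin p) → ι →₀ ℕ := fun s => Finsupp.equivFunOnFinite.symm fun i => s i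
  let L : ((ι → Fin p) → F) →ₗ[F] Λ :=
    Fintype.linearCombination F fun s => aeval t (monomial (e s) (1 : F))
  have h1 : ∀ g : MvPolynomial ι F, aeval t g = L fun s => coeff (e s) g := by
    intro g
    induction g using MvPolynomial.induction_on' with
    | add f g hf hg =>
      rw [map_add, hf, hg, ← map_add]
      exact congrArg L (funext fun s => (coeff_add _ _ _).symm)
    | monomial n c =>
      simp only [L, Fintype.linearCombination_apply, coeff_monomial]
      by_cases hn : ∀ i, n i < p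
      · have h2 : e (fun i => ⟨n i, hn i⟩) = n := by ext; rfl
        rw [Finset.sum_eq_single (fun i => ⟨n i, hn i⟩) (fun s _ hs => by
          rw [if_neg fun h => hs (funext fun i => Fin.ext (by simp [h, e])), zero_smul]) (by simp),
          h2, if_pos rfl, ← map_smul, smul_monomial, smul_eq_mul, mul_one]
      · obtain ⟨i, hi⟩ := not_forall.1 hn
        rw [Finset.sum_eq_zero fun s _ => by
          rw [if_neg fun h => hi (by rw [h]; exact (s i).2), zero_smul]]
        exact (Submodule.mem_bot _).1 (mono_mem c (not_lt.1 hi) ((Submodule.mem_bot _).2 (ht i)))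
  have := Module.finite_of_finrank_pos (R := F) (M := Λ) (hd ▸ pow_pos hp _)
  have h3 : Function.Injective L :=
    (LinearMap.injective_iff_surjective_of_finrank_eq_finrank (by simp [hd])).2 fun z => by
      obtain ⟨g, rfl⟩ := hs z
      exact ⟨_, (h1 g).symm⟩
  have h4 := congrFun (h3 ((h1 f).symm.trans (hf.trans L.map_zero.symm))) fun i => ⟨m i, hm i⟩
  have h2 : e (fun i => ⟨m i, hm i⟩) = m := by ext; rfl
  rwa [h2] at h4

theorem colon (hd : finrank F Λ = p ^ Fintype.card ι) (hp : 0 < p) (ht : ∀ i, t i ^ p = 0)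
    (hs : ∀ z, ∃ c : F, z - algebraMap F Λ c ∈ Ideal.span (range t)) {I : Set ι} {i : ι}
    (hi : i ∉ I) {a b : ℕ} (hab : a + b = p) {z : Λ} (hz : t i ^ a * z ∈ Ideal.span (t '' I)) :
    z ∈ Ideal.span (t '' I) ⊔ Ideal.span {t i ^ b} := by
  classical
  have h1 := aeval_surj ht hs
  obtain ⟨f, rfl⟩ := h1 z
  have h2 : Ideal.span (t '' I) =
      (Ideal.span (X '' I)).map (aeval t : MvPolynomial ι F →ₐ[F] Λ) := by
    rw [Ideal.map_span, image_image]
    simp
  obtain ⟨g, hg, e⟩ := (Ideal.mem_map_iff_of_surjective _ h1).1 (h2 ▸ hz)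
  have h3 : aeval t (monomial (Finsupp.single i a) 1 * f - g) = 0 := by
    rw [map_sub, e, map_mul, aeval_monomial]
    simp
  rw [f.as_sum, map_sum]
  refine Ideal.sum_mem _ fun m hm => ?_
  by_cases h4 : ∀ l, (Finsupp.single i a + m : ι →₀ ℕ) l < p
  · have h5 := ker_coeff hd hp ht h1 h3 h4
    rw [coeff_sub, coeff_monomial_mul, one_mul, sub_eq_zero] at h5
    obtain ⟨j, hj, h6⟩ := mem_ideal_span_X_image.1 hg _
      (mem_support_iff.2 (h5 ▸ mem_support_iff.1 hm))
    rw [Finsupp.add_apply, Finsupp.single_eq_of_ne (fun e => hi (by rwa [← e])), zero_add] at h6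
    exact mono_mem _ (Nat.one_le_iff_ne_zero.2 h6)
      (Ideal.mem_sup_left (by rw [pow_one]; exact Ideal.subset_span ⟨j, hj, rfl⟩))
  · obtain ⟨l, hl⟩ := not_forall.1 h4
    rw [Finsupp.add_apply] at hl
    by_cases e : l = i
    · rw [e, Finsupp.single_eq_same] at hl
      exact mono_mem _ (show b ≤ m i by omega) (Ideal.mem_sup_right (Ideal.subset_span rfl))
    · rw [Finsupp.single_eq_of_ne e] at hl
      exact mono_mem _ (show p ≤ m l by omega) (by rw [ht]; exact Submodule.zero_mem _)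

/-- The dual form. -/
theorem colon_dual {J : Ideal Λ} {x y : Λ} (h : ∀ z, x * z ∈ J → z ∈ J ⊔ Ideal.span {y})
    (ν : Λ →ₗ[F] F) (h1 : ∀ z ∈ J, ν z = 0) (h2 : ∀ z, ν (y * z) = 0) :
    ∃ ν' : Λ →ₗ[F] F, (∀ z ∈ J, ν' z = 0) ∧ ∀ z, ν' (x * z) = ν z := by
  let q : Λ →ₗ[F] Λ ⧸ J := (Ideal.Quotient.mkₐ F J).toLinearMap
  have h3 : ν ∈ (LinearMap.ker (q ∘ₗ LinearMap.mulLeft F x)).dualAnnihilator :=
    (Submodule.mem_dualAnnihilator ν).2 fun z hz => by
      obtain ⟨u, hu, v, hv, rfl⟩ := Submodule.mem_sup.1 (h z (Ideal.Quotient.eq_zero_iff_mem.1 hz))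
      obtain ⟨w, rfl⟩ := Ideal.mem_span_singleton'.1 hv
      rw [map_add, h1 u hu, mul_comm, h2, add_zero]
  rw [← LinearMap.range_dualMap_eq_dualAnnihilator_ker] at h3
  obtain ⟨μ, hμ⟩ := h3
  refine ⟨μ ∘ₗ q, fun z hz => ?_, fun z => ?_⟩
  · rw [LinearMap.comp_apply, show q z = 0 from Ideal.Quotient.eq_zero_iff_mem.2 hz, map_zero]
  · rw [← hμ]; rfl

end Pool.Agent.MP_826def_gt.H44
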