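import Pool.Agent.MP_826def_gt.H44.Par

/-! Permutation modules restricted to a shifted subgroup. -/

namespace Pool.Agent.MP_826def_gt.H44

open Set Module MonoidAlgebra

section Perm

variable (F T : Type) [Field F] [CommGroup T] {Ω Ω' κ : Type} [MulAction T Ω] [MulAction T Ω']

/-- The permutation representation. -/
noncomputable def rep (Ω : Type) [MulAction T Ω] : T →* Module.End F (Ω →₀ F) where
  toFun g := Finsupp.lmapDomain F F (g • ·)
  map_one' := by ext; simp
  map_mul' x y := by ext; simp [mul_smul]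

/-- The action of the group algebra. -/
noncomputable def act (Ω : Type) [MulAction T Ω] :
    MonoidAlgebra F T →ₐ[F] Module.End F (Ω →₀ F) := lift F _ T (rep F T Ω)

variable {F T}

theorem act_of (g : T) (s : Ω) (c : F) :
    act F T Ω (of F T g) (Finsupp.single s c) = Finsupp.single (g • s) c := by
  simp [act, rep]

theorem act_mul (x y : MonoidAlgebra F T) (z : Ω →₀ F) :
    act F T Ω (x * y) z = act F T Ω x (act F T Ω y z) := by rw [map_mul]; rfl

theorem act_comm {L : (Ω →₀ F) →ₗ[F] (Ω' →₀ F)}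
    (h : ∀ (g : T) s, L (Finsupp.single (g • s) 1) = act F T Ω' (of F T g) (L (Finsupp.single s 1)))
    (x : MonoidAlgebra F T) (z : Ω →₀ F) : L (act F T Ω x z) = act F T Ω' x (L z) := by
  induction x using MonoidAlgebra.induction_on with
  | of g =>
    induction z using Finsupp.induction_linear with
    | zero => simp
    | add a b ha hb => simp only [map_add, ha, hb]
    | single s c =>
      rw [← Finsupp.smul_single_one, map_smul, map_smul, map_smul, map_smul, act_of, h]
  | add x y hx hy => simp only [map_add, LinearMap.add_apply, hx, hy]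
  | smul c x hx => simp only [map_smul, LinearMap.smul_apply, hx]

theorem supp_ind {S : Set Ω} {P : (Ω →₀ F) → Prop} (h0 : P 0) (h1 : ∀ s ∈ S, P (Finsupp.single s 1))
    (h2 : ∀ x y, P x → P y → P (x + y)) (h3 : ∀ (c : F) x, P x → P (c • x)) {z : Ω →₀ F}
    (hz : z ∈ Finsupp.supported F F S) : P z := by
  rw [Finsupp.supported_eq_span_single] at hz
  induction hz using Submodule.span_induction with
  | mem x hx => obtain ⟨s, hs, rfl⟩ := hx; exact h1 s hs
  | zero => exact h0
  | add x y _ _ hx hy => exact h2 x y hx hy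
  | smul c x _ hx => exact h3 c x hx

theorem supp_map {M : Type} [AddCommGroup M] [Module F M] {S : Set Ω} {L : (Ω →₀ F) →ₗ[F] M}
    {N : Submodule F M} (h : ∀ s ∈ S, L (Finsupp.single s 1) ∈ N) {z : Ω →₀ F}
    (hz : z ∈ Finsupp.supported F F S) : L z ∈ N :=
  supp_ind (P := fun z => L z ∈ N) (by simp) h (fun x y hx hy => by simpa using N.add_mem hx hy)
    (fun c x hx => by simpa using N.smul_mem c hx) hz

theorem supp_eq {M : Type} [AddCommGroup M] [Module F M] {S : Set Ω} {L L' : (Ω →₀ F) →ₗ[F] M}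
    (h : ∀ s ∈ S, L (Finsupp.single s 1) = L' (Finsupp.single s 1)) {z : Ω →₀ F}
    (hz : z ∈ Finsupp.supported F F S) : L z = L' z :=
  sub_eq_zero.1 ((Submodule.mem_bot F).1 (supp_map (L := L - L')
    (fun s hs => (Submodule.mem_bot F).2 (sub_eq_zero.2 (h s hs))) hz))

theorem act_mem {S : Set Ω} (hS : ∀ (g : T), ∀ s ∈ S, g • s ∈ S) (x : MonoidAlgebra F T)
    {z : Ω →₀ F} (hz : z ∈ Finsupp.supported F F S) : act F T Ω x z ∈ Finsupp.supported F F S := by
  induction x using MonoidAlgebra.induction_on with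
  | of g =>
    exact supp_map (fun s hs => by
      rw [act_of]; exact Finsupp.single_mem_supported F _ (hS g s hs)) hz
  | add x y hx hy => rw [map_add]; exact Submodule.add_mem _ hx hy
  | smul c x hx => rw [map_smul]; exact Submodule.smul_mem _ c hx

/-- The ideal of the other parameters and of a subgroup. -/
noncomputable def JJ (u : κ → MonoidAlgebra F T) (K : Subgroup T) (i : κ) : Ideal (MonoidAlgebra F T) :=
  Ideal.span (u '' {j | j ≠ i} ∪ (fun k => of F T k - 1) '' K)

/-- Freeness of the cosets of `K` over the shifted subgroup. -/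
def Col (p : ℕ) (u : κ → MonoidAlgebra F T) (K : Subgroup T) : Prop :=
  ∀ i a b, a + b = p → ∀ z, u i ^ a * z ∈ JJ u K i → z ∈ JJ u K i ⊔ Ideal.span {u i ^ b}

theorem ex_perm {p : ℕ} {u : κ → MonoidAlgebra F T} {S : Set Ω}
    (hS : ∀ (g : T), ∀ s ∈ S, g • s ∈ S) (h : ∀ s ∈ S, Col p u (MulAction.stabilizer T s))
    (i : κ) {a b : ℕ} (hab : a + b = p) (ν : (Ω →₀ F) →ₗ[F] F)
    (h1 : ∀ j ≠ i, ∀ z ∈ Finsupp.supported F F S, ν (act F T Ω (u j) z) = 0)
    (h2 : ∀ z ∈ Finsupp.supported F F S, ν (act F T Ω (u i ^ b) z) = 0) :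
    ∃ ν' : (Ω →₀ F) →ₗ[F] F,
      (∀ j ≠ i, ∀ z ∈ Finsupp.supported F F S, ν' (act F T Ω (u j) z) = 0) ∧
      ∀ z ∈ Finsupp.supported F F S, ν' (act F T Ω (u i ^ a) z) = ν z := by
  have k1 : ∀ s, ∃ μ : MonoidAlgebra F T →ₗ[F] F, s ∈ S →
      (∀ z ∈ JJ u (MulAction.stabilizer T s) i, μ z = 0) ∧
        ∀ z, μ (u i ^ a * z) = ν (act F T Ω z (Finsupp.single s 1)) := fun s => by
    by_cases hs : s ∈ S
    · have m : ∀ w, act F T Ω w (Finsupp.single s 1) ∈ Finsupp.supported F F S := fun w =>
        act_mem hS w (Finsupp.single_mem_supported F _ hs)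
      obtain ⟨μ, hμ⟩ := colon_dual (h s hs i a b hab)
        (ν ∘ₗ LinearMap.applyₗ (Finsupp.single s (1 : F)) ∘ₗ (act F T Ω).toLinearMap)
        (fun z hz => by
          have : ∀ w, ν (act F T Ω (z * w) (Finsupp.single s 1)) = 0 := by
            induction hz using Submodule.span_induction with
            | mem x hx =>
              intro w
              rcases hx with ⟨j, hj, rfl⟩ | ⟨k, hk, rfl⟩
              · rw [act_mul]; exact h1 j hj _ (m w)
              · rw [mul_comm, act_mul, map_sub, LinearMap.sub_apply, act_of,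
                  show k • s = s from hk]
                simp
            | zero => simp
            | add x y _ _ hx hy => intro w; rw [add_mul, map_add, LinearMap.add_apply, map_add, hx, hy, add_zero]
            | smul c x _ hx => intro w; rw [smul_eq_mul, mul_comm c, mul_assoc]; exact hx _
          simpa using this 1)
        fun z => by
          have := h2 _ (m z)
          rwa [← act_mul] at this
      exact ⟨μ, fun _ => hμ⟩
    · exact ⟨0, fun e => absurd e hs⟩
  choose μ hμ using k1
  let r : Ω → Ω := fun s => (Quotient.mk (MulAction.orbitRel T Ω) s).out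
  have k2 : ∀ s, ∃ g : T, g • r s = s := fun s =>
    MulAction.orbitRel_apply.1 (Quotient.exact (Quotient.out_eq (Quotient.mk _ s)).symm)
  choose g hg using k2
  have k3 : ∀ s ∈ S, r s ∈ S := fun s hs => by
    rw [eq_inv_smul_iff.2 (hg s)]
    exact hS _ s hs
  let ν' : (Ω →₀ F) →ₗ[F] F := Finsupp.linearCombination F fun s => μ (r s) (of F T (g s))
  have k4 : ∀ s ∈ S, ∀ x, ν' (act F T Ω x (Finsupp.single (r s) 1)) = μ (r s) x := by
    intro s hs x
    induction x using MonoidAlgebra.induction_on with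
    | of t =>
      have e : r (t • r s) = r s := congrArg Quotient.out
        ((Quotient.sound (MulAction.orbitRel_apply.2 ⟨t, rfl⟩)).trans (Quotient.out_eq _))
      have e' : t⁻¹ * g (t • r s) ∈ MulAction.stabilizer T (r s) := by
        have := hg (t • r s)
        rw [e] at this
        rw [MulAction.mem_stabilizer_iff, mul_smul, this, inv_smul_smul]
      have := (hμ _ (k3 s hs)).1 _ (Ideal.mul_mem_left _ (of F T t)
        (Ideal.subset_span (Or.inr ⟨_, e', rfl⟩)))
      rw [mul_sub, ← map_mul, mul_inv_cancel_left, mul_one, map_sub, sub_eq_zero] at this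
      rw [act_of, Finsupp.linearCombination_single, one_smul, e, this]
    | add x y hx hy => simp only [map_add, LinearMap.add_apply, hx, hy]
    | smul c x hx => simp only [map_smul, LinearMap.smul_apply, hx]
  have k5 : ∀ s, Finsupp.single s (1 : F) = act F T Ω (of F T (g s)) (Finsupp.single (r s) 1) :=
    fun s => by rw [act_of, hg]
  refine ⟨ν', fun j hj z hz => supp_eq (L := ν' ∘ₗ act F T Ω (u j)) (L' := 0) (fun s hs => ?_) hz,
    fun z hz => supp_eq (L := ν' ∘ₗ act F T Ω (u i ^ a)) (fun s hs => ?_) hz⟩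
  · rw [LinearMap.comp_apply, k5, ← act_mul, k4 s hs]
    exact (hμ _ (k3 s hs)).1 _ (Ideal.mul_mem_right _ _ (Ideal.subset_span (Or.inl ⟨j, hj, rfl⟩)))
  · rw [LinearMap.comp_apply, k5, ← act_mul, k4 s hs, (hμ _ (k3 s hs)).2]

end Perm

section Shift

variable {F κ : Type} [Field F] [Fintype κ] [DecidableEq κ] {p : ℕ} [Fact p.Prime] [CharP F p]

/-- The elementary abelian group. -/
abbrev TT (p : ℕ) (κ : Type) : Type := Multiplicative (Option κ → ZMod p)

/-- The generators. -/
def tau (p : ℕ) (o : Option κ) : TT p κ := Multiplicative.ofAdd (Pi.single o 1)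

/-- The generators of the shifted subgroup. -/
noncomputable def uu (p : ℕ) (lam : F) (i₀ i : κ) : MonoidAlgebra F (TT p κ) :=
  (of F _ (tau p (some i)) - 1) + if i = i₀ then lam • (of F _ (tau p none) - 1) else 0

omit [Fintype κ] [DecidableEq κ] in
theorem TT_pow (g : TT p κ) : g ^ p = 1 := by
  rw [← ofAdd_toAdd g, ← ofAdd_nsmul]
  exact congrArg Multiplicative.ofAdd (funext fun o => by simp)

theorem TT_prod (g : TT p κ) : g = ∏ o, tau p o ^ (g.toAdd o).val := by
  apply Multiplicative.toAdd.injective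
  funext o
  rw [toAdd_prod, Finset.sum_apply, Finset.sum_eq_single o _ (by simp)]
  · rw [toAdd_pow, Pi.smul_apply, tau, toAdd_ofAdd, Pi.single_eq_same, nsmul_one,
      ZMod.natCast_zmod_val]
  · intro o' _ h
    rw [toAdd_pow, Pi.smul_apply, tau, toAdd_ofAdd, Pi.single_eq_of_ne h.symm, smul_zero]

instance : CharP (MonoidAlgebra F (TT p κ)) p :=
  charP_of_injective_algebraMap (algebraMap F _).injective p

omit [Fintype κ] [DecidableEq κ] in
theorem of_pow (g : TT p κ) : (of F _ g - 1) ^ p = 0 := by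
  rw [sub_pow_char, ← map_pow, TT_pow, map_one, one_pow, sub_self]

omit [Fintype κ] in
theorem uu_pow (lam : F) (i₀ i : κ) : uu p lam i₀ i ^ p = 0 := by
  rw [uu, add_pow_char, of_pow, zero_add]
  split_ifs
  · rw [smul_pow, of_pow, smul_zero]
  · exact zero_pow (Fact.out : p.Prime).ne_zero

theorem one_add_pow {Q : Type} [CommRing Q] (y : Q) (n : ℕ) :
    ∃ q, (1 + y) ^ n = 1 + n * y + y ^ 2 * q := by
  induction n with
  | zero => exact ⟨0, by simp⟩
  | succ n ih =>
    obtain ⟨q, hq⟩ := ih
    exact ⟨q + n + y * q, by rw [pow_succ, hq]; push_cast; ring⟩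

theorem col_aux {lam : F} (hl : ∀ a b : ZMod p, a ≠ 0 ∨ b ≠ 0 → (b.val : F) ≠ a.val * lam)
    (i₀ : κ) {g : TT p κ} (hg : g.toAdd (some i₀) ≠ 0 ∨ g.toAdd none ≠ 0)
    {I : Set (Option κ)} {i : κ} (hi : some i ∉ I) {a b : ℕ} (hab : a + b = p)
    {z : MonoidAlgebra F (TT p κ)}
    (hz : uu p lam i₀ i ^ a * z ∈
      Ideal.span ((fun o : Option κ => o.elim (of F _ g - 1) (uu p lam i₀)) '' I)) :
    z ∈ Ideal.span ((fun o : Option κ => o.elim (of F _ g - 1) (uu p lam i₀)) '' I) ⊔
      Ideal.span {uu p lam i₀ i ^ b} := by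
  refine colon (F := F) (p := p) (i := some i) ?_ (Fact.out : p.Prime).pos ?_ ?_ hi hab hz
  · rw [(coeffLinearEquiv F).finrank_eq, Module.finrank_finsupp_self]
    simp
  · rintro (_ | j)
    · exact of_pow g
    · exact uu_pow _ _ _
  · generalize hJ : Ideal.span (range fun o : Option κ => o.elim (of F _ g - 1) (uu p lam i₀)) = J
    have m : ∀ o : Option κ, Ideal.Quotient.mkₐ F J (o.elim (of F _ g - 1) (uu p lam i₀)) = 0 :=
      fun o => Ideal.Quotient.eq_zero_iff_mem.2 (hJ ▸ Ideal.subset_span ⟨o, rfl⟩)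
    obtain ⟨y, hy⟩ : ∃ y, Ideal.Quotient.mkₐ F J (of F _ (tau p none)) = 1 + y :=
      ⟨_, (add_sub_cancel _ _).symm⟩
    have n1 : y ^ p = 0 := by
      have := congrArg (Ideal.Quotient.mkₐ F J) (of_pow (F := F) (tau p (none : Option κ)))
      rwa [map_pow, map_sub, hy, map_one, add_sub_cancel_left, map_zero] at this
    have n2 : ∀ j, Ideal.Quotient.mkₐ F J (of F _ (tau p (some j))) =
        if j = i₀ then 1 + -(lam • y) else 1 := fun j => by
      have := m (some j)
      simp only [Option.elim, uu, map_add, map_sub, map_one] at this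
      split_ifs at this ⊢
      · rw [map_smul, map_sub, hy, map_one, add_sub_cancel_left] at this
        linear_combination this
      · linear_combination this - map_zero (Ideal.Quotient.mkₐ F J)
    have n3 : ∀ h : TT p κ, Ideal.Quotient.mkₐ F J (of F _ h) =
        (1 + y) ^ (h.toAdd none).val * (1 + -(lam • y)) ^ (h.toAdd (some i₀)).val := fun h => by
      conv_lhs => rw [TT_prod h]
      rw [map_prod, map_prod, Fintype.prod_option]
      simp only [map_pow, hy, n2, ite_pow, one_pow, Finset.prod_ite_eq', Finset.mem_univ, if_true]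
    have n4 : y = 0 := by
      have e := m none
      simp only [Option.elim, map_sub, map_one, n3] at e
      obtain ⟨q, hq⟩ := one_add_pow y (g.toAdd none).val
      obtain ⟨q', hq'⟩ := one_add_pow (-(lam • y)) (g.toAdd (some i₀)).val
      have hc := sub_ne_zero.2 (hl _ _ hg)
      rw [hq, hq', Algebra.smul_def lam y] at e
      obtain ⟨w, hw⟩ : ∃ w, y * (algebraMap F _
          (((g.toAdd none).val : F) - (g.toAdd (some i₀)).val * lam) + y * w) = 0 := by
        refine ⟨q * (1 + (g.toAdd (some i₀)).val * -(algebraMap F _ lam * y) +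
          (algebraMap F _ lam * y) ^ 2 * q') + (algebraMap F _ lam) ^ 2 * q' *
            (1 + (g.toAdd none).val * y) -
          (g.toAdd none).val * (g.toAdd (some i₀)).val * algebraMap F _ lam, ?_⟩
        rw [map_sub, map_mul, map_natCast, map_natCast]
        linear_combination e
      exact (IsNilpotent.isUnit_add_left_of_commute
        (⟨p, by rw [mul_pow, n1, zero_mul]⟩ : IsNilpotent (y * w))
        ((IsUnit.mk0 _ hc).map (algebraMap F _)) (Commute.all _ _)).mul_left_eq_zero.1 hw
    intro x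
    induction x using MonoidAlgebra.induction_on with
    | of h =>
      refine ⟨1, Ideal.Quotient.eq_zero_iff_mem.1 ?_⟩
      have := n3 h
      rw [n4, smul_zero, neg_zero, add_zero, one_pow, one_pow, one_mul] at this
      rw [map_one, map_sub, map_one]
      exact sub_eq_zero.2 this
    | add x x' hx hx' =>
      obtain ⟨c, hc⟩ := hx
      obtain ⟨c', hc'⟩ := hx'
      exact ⟨c + c', by rw [map_add, add_sub_add_comm]; exact J.add_mem hc hc'⟩
    | smul d x hx =>
      obtain ⟨c, hc⟩ := hx
      exact ⟨d * c, by rw [map_mul, Algebra.smul_def, ← mul_sub]; exact J.mul_mem_left _ hc⟩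

theorem col {lam : F} (hl : ∀ a b : ZMod p, a ≠ 0 ∨ b ≠ 0 → (b.val : F) ≠ a.val * lam)
    (i₀ i₁ : κ) {K : Subgroup (TT p κ)} (hK : ∀ k ∈ K, k ≠ 1 →
      k.toAdd (some i₁) ≠ 0 ∧ (k.toAdd (some i₀) ≠ 0 ∨ k.toAdd none ≠ 0)) :
    Col p (uu p lam i₀) K := by
  intro i a b hab z hz
  by_cases h : ∃ g ∈ K, g ≠ 1
  · obtain ⟨g, hg, hg'⟩ := h
    have e : JJ (uu p lam i₀) K i = Ideal.span
        ((fun o : Option κ => o.elim (of F _ g - 1) (uu p lam i₀)) '' {o | o ≠ some i}) := by
      refine le_antisymm (Ideal.span_le.2 ?_) (Ideal.span_mono ?_)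
      · rintro _ (⟨j, hj, rfl⟩ | ⟨k, hk, rfl⟩)
        · exact Ideal.subset_span ⟨some j, fun e => hj (Option.some.inj e), rfl⟩
        · have : k = g ^ (k.toAdd (some i₁) / g.toAdd (some i₁)).val := by
            rw [← mul_inv_eq_one]
            by_contra hn
            refine (hK _ (K.mul_mem hk (K.inv_mem (K.pow_mem hg _))) hn).1 ?_
            rw [toAdd_mul, toAdd_inv, toAdd_pow, Pi.add_apply, Pi.neg_apply, Pi.smul_apply,
              nsmul_eq_mul, ZMod.natCast_zmod_val, div_mul_cancel₀ _ (hK g hg hg').1,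
              add_neg_cancel]
          beta_reduce
          rw [this, map_pow]
          exact Ideal.mem_of_dvd _ (sub_one_dvd_pow_sub_one _ _)
            (Ideal.subset_span ⟨none, by simp, rfl⟩)
      · rintro _ ⟨_ | j, hj, rfl⟩
        · exact Or.inr ⟨g, hg, rfl⟩
        · exact Or.inl ⟨j, fun e => hj (congrArg some e), rfl⟩
    rw [e] at hz ⊢
    exact col_aux hl i₀ (hK g hg hg').2 (by simp) hab hz
  · have e : JJ (uu p lam i₀) K i = Ideal.span ((fun o : Option κ =>
        o.elim (of F _ (tau p none) - 1) (uu p lam i₀)) '' (some '' {j | j ≠ i})) := by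
      refine le_antisymm (Ideal.span_le.2 ?_) (Ideal.span_mono ?_)
      · rintro _ (⟨j, hj, rfl⟩ | ⟨k, hk, rfl⟩)
        · exact Ideal.subset_span ⟨some j, ⟨j, hj, rfl⟩, rfl⟩
        · beta_reduce
          rw [not_not.1 fun e => h ⟨k, hk, e⟩, map_one, sub_self]
          exact Submodule.zero_mem _
      · rintro _ ⟨_, ⟨j, hj, rfl⟩, rfl⟩
        exact Or.inl ⟨j, hj, rfl⟩
    rw [e] at hz ⊢
    exact col_aux hl i₀ (Or.inr (by simp [tau])) (by simp) hab hz

end Shift

end Pool.Agent.MP_826def_gt.H44
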