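import Pool.Agent.MP_826def_gt.H44.Chain

/-! Systems of chains indexed by the cells of a product, and their detection. -/

namespace Pool.Agent.MP_826def_gt.H44

open Finset

variable {F Λ M κ : Type} [Field F] [CommRing Λ] [Algebra F Λ] [AddCommGroup M] [Module F M]
  [Fintype κ] [LinearOrder κ]

/-- The exponents of the periodic resolution. -/
def aa (p m : ℕ) : ℕ := if Even m then p - 1 else 1

theorem aa_add {p : ℕ} (hp : 2 ≤ p) (m : ℕ) : aa p m + aa p (m + 1) = p := by
  unfold aa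
  by_cases h : Even m <;> simp [h, Nat.even_add_one] <;> omega

theorem aa_bd {p : ℕ} (hp : 2 ≤ p) (m : ℕ) : 1 ≤ aa p m ∧ aa p m + 1 ≤ p := by
  unfold aa
  split_ifs <;> omega

/-- Lowering one index. -/
def dn (n : κ → ℕ) (i : κ) : κ → ℕ := Function.update n i (n i - 1)

/-- The signs. -/
def sg (F : Type) [Field F] (n : κ → ℕ) (i : κ) : F :=
  if n i = 0 then 0 else (-1) ^ ∑ j ∈ univ.filter (· < i), n j

omit [Fintype κ] in
theorem sum_dn {n : κ → ℕ} {i : κ} (h : n i ≠ 0) {S : Finset κ} (hi : i ∈ S) :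
    ∑ j ∈ S, dn n i j + 1 = ∑ j ∈ S, n j := by
  rw [dn, sum_update_of_mem hi, ← add_sum_erase _ _ hi, sdiff_singleton_eq_erase]
  omega

omit [Fintype κ] in
theorem dn_ne (n : κ → ℕ) {i j : κ} (h : j ≠ i) : dn n i j = n j := Function.update_of_ne h _ _

omit [Fintype κ] in
theorem dn_self (n : κ → ℕ) (i : κ) : dn n i i = n i - 1 := Function.update_self _ _ _

omit [Fintype κ] in
theorem dn_le (n : κ → ℕ) (i j : κ) : dn n i j ≤ n j := by
  by_cases h : j = i
  · rw [h, dn_self]; omega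
  · rw [dn_ne n h]

omit [Fintype κ] in
theorem dn_comm (n : κ → ℕ) {i j : κ} (h : i ≠ j) : dn (dn n i) j = dn (dn n j) i := by
  rw [dn, dn_ne n h.symm, dn, dn, dn_ne n h, dn, Function.update_comm h]

theorem sg_anti (n : κ → ℕ) {i j : κ} (h : i < j) :
    sg F n i * sg F (dn n i) j + sg F n j * sg F (dn n j) i = 0 := by
  have e : ∑ l ∈ univ.filter (· < i), dn n j l = ∑ l ∈ univ.filter (· < i), n l :=
    sum_congr rfl fun l hl => dn_ne n ((mem_filter.1 hl).2.trans h).ne
  simp only [sg, dn_ne n h.ne, dn_ne n h.ne', e]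
  split_ifs with a b
  · simp
  · simp
  · simp
  · rw [← sum_dn a (S := univ.filter (· < j)) (by simpa using h), pow_succ]
    ring

/-- The prescribed boundary. -/
noncomputable def rhs (A : Λ →ₐ[F] Module.End F M) (u : κ → Λ) (p : ℕ) (e : M)
    (c : (κ → ℕ) → M) (n : κ → ℕ) : M :=
  (if n = 0 then e else 0) + ∑ i, sg F n i • A (u i ^ aa p (n i)) (c (dn n i))

variable {A : Λ →ₐ[F] Module.End F M} {u : κ → Λ} {p : ℕ} {e : M} {b : M →ₗ[F] M}

theorem A_mul (A : Λ →ₐ[F] Module.End F M) (x y : Λ) (z : M) : A (x * y) z = A x (A y z) := by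
  rw [map_mul]; rfl

theorem rhs_congr {c c' : (κ → ℕ) → M} {n : κ → ℕ} (h : ∀ i, n i ≠ 0 → c (dn n i) = c' (dn n i)) :
    rhs A u p e c n = rhs A u p e c' n := by
  refine congrArg _ (sum_congr rfl fun i _ => ?_)
  by_cases hi : n i = 0
  · simp [sg, hi]
  · rw [h i hi]

theorem rhs_cycle (hp : 2 ≤ p) (hu : ∀ i, u i ^ p = 0) (he : ∀ i, A (u i) e = 0) (hb : b e = 0)
    (hc : ∀ x z, b (A x z) = A x (b z)) {c : (κ → ℕ) → M} {n : κ → ℕ}
    (h : ∀ i, n i ≠ 0 → b (c (dn n i)) = rhs A u p e c (dn n i)) : b (rhs A u p e c n) = 0 := by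
  have h1 : ∀ i, b (sg F n i • A (u i ^ aa p (n i)) (c (dn n i))) =
      ∑ j, (sg F n i * sg F (dn n i) j) •
        A (u i ^ aa p (n i) * u j ^ aa p (dn n i j)) (c (dn (dn n i) j)) := fun i => by
    by_cases hi : n i = 0
    · simp [sg, hi]
    · obtain ⟨a, ha⟩ := Nat.exists_eq_add_of_le' (aa_bd hp (n i)).1
      have : A (u i ^ aa p (n i)) (if dn n i = 0 then e else 0) = 0 := by
        split_ifs
        · rw [ha, pow_succ, A_mul, he, map_zero]
        · exact map_zero _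
      rw [map_smul, hc, h i hi, rhs, map_add, this, zero_add, map_sum, smul_sum]
      exact sum_congr rfl fun j _ => by rw [map_smul, smul_smul, A_mul]
  have h2 : b (if n = 0 then e else 0) = 0 := by split_ifs <;> simp [hb]
  rw [rhs, map_add, h2, zero_add, map_sum]
  simp only [h1]
  rw [← sum_product']
  have h3 : ∀ i, (sg F n i * sg F (dn n i) i) •
      A (u i ^ aa p (n i) * u i ^ aa p (dn n i i)) (c (dn (dn n i) i)) = 0 := fun i => by
    by_cases hi : n i = 0
    · simp [sg, hi]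
    · obtain ⟨m, hm⟩ := Nat.exists_eq_succ_of_ne_zero hi
      rw [← pow_add, dn_self, hm, Nat.succ_sub_one, add_comm, aa_add hp, hu]
      simp
  refine sum_involution (fun x _ => x.swap) (fun x _ => ?_) (fun x _ h0 e => h0 ?_)
    (fun _ _ => mem_univ _) fun _ _ => rfl
  · obtain ⟨i, j⟩ := x
    by_cases hij : i = j
    · subst hij
      simp only [Prod.swap_prod_mk, h3, add_zero]
    · simp only [Prod.swap_prod_mk]
      rw [dn_comm n hij, dn_ne n hij, dn_ne n (Ne.symm hij), mul_comm (u j ^ _), ← add_smul]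
      rcases lt_or_gt_of_ne hij with h4 | h4
      · rw [sg_anti n h4, zero_smul]
      · rw [add_comm, sg_anti n h4, zero_smul]
  · obtain ⟨i, j⟩ := x
    obtain rfl : j = i := congrArg Prod.fst e
    exact h3 j

/-- Existence of a system of chains. -/
theorem exists_sys (hp : 2 ≤ p) (hu : ∀ i, u i ^ p = 0) (he : ∀ i, A (u i) e = 0) (hb : b e = 0)
    (hc : ∀ x z, b (A x z) = A x (b z)) {k : ℕ} {S S' : (κ → ℕ) → Submodule F M} (h0 : e ∈ S' 0)
    (h1 : ∀ n i a, (∀ j, n j ≤ k) → n i ≠ 0 → ∀ z ∈ S (dn n i), A (u i ^ a) z ∈ S' n)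
    (h2 : ∀ n, (∀ j, n j ≤ k) → ∀ z ∈ S' n, b z = 0 → ∃ c ∈ S n, b c = z) :
    ∃ c : (κ → ℕ) → M, ∀ n, (∀ j, n j ≤ k) → c n ∈ S n ∧ b (c n) = rhs A u p e c n := by
  have key : ∀ m : ℕ, ∃ c : (κ → ℕ) → M, ∀ n, (∀ j, n j ≤ k) → ∑ j, n j < m →
      c n ∈ S n ∧ b (c n) = rhs A u p e c n := by
    intro m
    induction m with
    | zero => exact ⟨0, fun n _ h => absurd h (Nat.not_lt_zero _)⟩
    | succ m ih =>
      obtain ⟨c, hc'⟩ := ih
      have k1 : ∀ n : κ → ℕ, ∃ x, (∀ j, n j ≤ k) → ∑ j, n j = m →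
          x ∈ S n ∧ b x = rhs A u p e c n := fun n => by
        by_cases hn : (∀ j, n j ≤ k) ∧ ∑ j, n j = m
        · have k2 := fun i (hi : n i ≠ 0) => hc' (dn n i) (fun j => (dn_le n i j).trans (hn.1 j))
            (by have := sum_dn hi (mem_univ i); omega)
          obtain ⟨x, hx⟩ := h2 n hn.1 (rhs A u p e c n) (Submodule.add_mem _ (by
            split_ifs with h
            · exact h ▸ h0
            · exact Submodule.zero_mem _) (Submodule.sum_mem _ fun i _ => by
              by_cases hi : n i = 0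
              · simp [sg, hi]
              · exact Submodule.smul_mem _ _ (h1 n i _ hn.1 hi _ (k2 i hi).1)))
            (rhs_cycle hp hu he hb hc fun i hi => (k2 i hi).2)
          exact ⟨x, fun _ _ => hx⟩
        · exact ⟨0, fun a a' => absurd ⟨a, a'⟩ hn⟩
      choose x hx using k1
      refine ⟨fun n => if ∑ j, n j = m then x n else c n, fun n hn hm => ?_⟩
      rw [rhs_congr (c' := c) fun i hi => if_neg (by have := sum_dn hi (mem_univ i); omega)]
      beta_reduce
      split_ifs with h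
      · exact hx n hn h
      · exact hc' n hn (by omega)
  obtain ⟨c, hc'⟩ := key (Fintype.card κ * k + 1)
  exact ⟨c, fun n hn => hc' n hn (Nat.lt_succ_of_le
    ((sum_le_card_nsmul _ _ k fun j _ => hn j).trans (by simp)))⟩

/-- The top chain of a system in a free complex does not vanish. -/
theorem top_ne (hp : 2 ≤ p) (hu : ∀ i, u i ^ p = 0) (hc : ∀ x z, b (A x z) = A x (b z))
    (hbb : ∀ z, b (b z) = 0) {D : ℕ → Submodule F M} (hD : ∀ m x, ∀ z ∈ D m, A x z ∈ D m)
    (hb : ∀ m, ∀ z ∈ D (m + 1), b z ∈ D m)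
    (hex : ∀ m i a a', a + a' = p → ∀ ν : M →ₗ[F] F,
      (∀ j ≠ i, ∀ z ∈ D (m + 1), ν (A (u j) z) = 0) → (∀ z ∈ D (m + 1), ν (A (u i ^ a') z) = 0) →
      ∃ ν' : M →ₗ[F] F, (∀ j ≠ i, ∀ z ∈ D (m + 1), ν' (A (u j) z) = 0) ∧
        ∀ z ∈ D (m + 1), ν' (A (u i ^ a) z) = ν z)
    {ε : M →ₗ[F] F} (hε : ε e ≠ 0) (hε' : ∀ j z, ε (A (u j) z) = 0) {k : ℕ} {d : (κ → ℕ) → M}
    (hd : ∀ n, (∀ j, n j ≤ k) → d n ∈ D (∑ j, n j + 1) ∧ b (d n) = rhs A u p e d n) :
    d (fun _ => k) ≠ 0 := by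
  let Cl : (κ → ℕ) → Prop := fun n => ∃ ν : M →ₗ[F] F,
    (∀ j, ∀ z ∈ D (∑ j, n j + 1), ν (A (u j) z) = 0) ∧
      (∀ z ∈ D (∑ j, n j + 1 + 1), ν (b z) = 0) ∧ ν (d n) ≠ 0
  let St : κ → (κ → ℕ) → Prop := fun i n => ∃ ν : M →ₗ[F] F,
    (∀ j ≠ i, ∀ z ∈ D (∑ j, n j + 1), ν (A (u j) z) = 0) ∧
      (∀ z ∈ D (∑ j, n j + 1 + 1), ν (b (A (u i ^ aa p (n i)) z)) = 0) ∧
        ν (A (u i ^ (p - 1)) (d n)) ≠ 0
  have s1 : ∀ i n, (∀ j, n j ≤ k) → n i = 0 → Cl n → St i n := by
    rintro i n hn hi ⟨ν, a1, a2, a3⟩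
    obtain ⟨ν', b1, b2⟩ := hex _ i (p - 1) 1 (by omega) ν (fun j _ => a1 j)
      (by rw [pow_one]; exact a1 i)
    exact ⟨ν', b1, fun z hz => by
      rw [hi, aa, if_pos Even.zero, hc, b2 _ (hb _ z hz), a2 z hz], by rwa [b2]; exact (hd n hn).1⟩
  have s2 : ∀ i n, St i n → Cl n := by
    rintro i n ⟨ν, a1, a2, a3⟩
    refine ⟨ν ∘ₗ A (u i ^ (p - 1)), fun j z hz => ?_, fun z hz => ?_, a3⟩
    · rw [LinearMap.comp_apply, ← A_mul]
      by_cases h : j = i
      · rw [h, ← pow_succ, Nat.sub_add_cancel (by omega), hu]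
        simp
      · rw [mul_comm, A_mul]
        exact a1 j h _ (hD _ _ _ hz)
    · obtain ⟨a, ha⟩ := Nat.exists_eq_add_of_le (show aa p (n i) ≤ p - 1 by
        have := aa_bd hp (n i); omega)
      rw [LinearMap.comp_apply, ← hc, ha, pow_add, A_mul]
      exact a2 _ (hD _ _ _ hz)
  have s3 : ∀ i n, (∀ j, n j ≤ k) → n i ≠ 0 → St i (dn n i) → St i n := by
    rintro i n hn hi ⟨ν, a1, a2, a3⟩
    have e1 := sum_dn hi (mem_univ i)
    obtain ⟨m, hm⟩ := Nat.exists_eq_succ_of_ne_zero hi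
    have e2 := aa_add hp m
    have e3 := aa_add hp (m + 1)
    rw [e1] at a1 a2
    rw [dn_self, hm, Nat.succ_sub_one] at a2
    obtain ⟨ν', b1, b2⟩ := hex _ i (aa p (n i)) (aa p m) (by rw [hm, add_comm]; exact e2) (ν ∘ₗ b)
      (fun j hj z hz => by rw [LinearMap.comp_apply, hc]; exact a1 j hj _ (hb _ z hz)) a2
    refine ⟨ν', b1, fun z hz => by
      rw [hc, b2 _ (hb _ z hz), LinearMap.comp_apply, hbb, map_zero], ?_⟩
    obtain ⟨c, hc'⟩ := Nat.exists_eq_add_of_le (show aa p (n i) ≤ p - 1 by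
      have := aa_bd hp (n i); omega)
    rw [hc', pow_add, A_mul, b2 _ (hD _ _ _ (hd n hn).1), LinearMap.comp_apply, hc, (hd n hn).2,
      rhs, if_neg fun h => hi (congrFun h i), zero_add, map_sum, map_sum,
      sum_eq_single i (fun j _ hj => ?_) (by simp), map_smul, map_smul, ← A_mul, ← pow_add,
      add_comm, ← hc']
    · exact smul_ne_zero (by simp [sg, hi]) a3
    · by_cases h : n j = 0
      · simp [sg, h]
      · obtain ⟨a, ha⟩ := Nat.exists_eq_add_of_le (aa_bd hp (n j)).1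
        have := (hd (dn n j) fun l => (dn_le n j l).trans (hn l)).1
        rw [sum_dn h (mem_univ j)] at this
        rw [map_smul, map_smul, ← A_mul, ha, pow_add, pow_one, mul_left_comm, A_mul,
          a1 j hj _ (hD _ _ _ this), smul_zero]
  have s4 : ∀ S : Finset κ, Cl fun j => if j ∈ S then k else 0 := by
    intro S
    induction S using Finset.induction_on with
    | empty =>
      refine ⟨ε ∘ₗ b, fun j z _ => by rw [LinearMap.comp_apply, hc, hε'],
        fun z _ => by rw [LinearMap.comp_apply, hbb, map_zero], ?_⟩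
      rw [LinearMap.comp_apply, (hd _ (by simp)).2, rhs, if_pos (by ext; simp)]
      simpa [sg] using hε
    | insert i S hi ih =>
      have t1 : ∀ m ≤ k, ∀ j, Function.update (fun j => if j ∈ S then k else 0) i m j ≤ k := by
        intro m hm j
        rw [Function.update_apply]
        split_ifs <;> omega
      have t2 : ∀ m ≤ k, St i (Function.update (fun j => if j ∈ S then k else 0) i m) := by
        intro m
        induction m with
        | zero =>
          refine fun h => s1 i _ (t1 0 h) (by simp) ?_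
          rwa [Function.update_eq_self_iff.2 (by simp [hi])]
        | succ m ih' =>
          refine fun h => s3 i _ (t1 _ h) (by simp) ?_
          simpa [dn] using ih' (by omega)
      have t3 := s2 i _ (t2 k le_rfl)
      rwa [show Function.update (fun j => if j ∈ S then k else 0) i k =
        fun j => if j ∈ insert i S then k else 0 from funext fun j => by
          by_cases h : j = i <;> simp [h]] at t3
  obtain ⟨ν, -, -, h⟩ := s4 univ
  simp only [mem_univ, if_true] at h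
  exact fun h0 => h (by rw [h0, map_zero])

end Pool.Agent.MP_826def_gt.H44
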